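import Mathlib
import Pool.Agent.H612.BB.T_REG
import Pool.Agent.H612.BB.T_KEY

/-!
# Mountains: polygons between an `x`-monotone chain and a horizontal edge
-/

set_option autoImplicit false

namespace Pool.Agent.K6.H22.VG

open Vis124 H612BB Set

/-- the closed polygon with the vertices `p 0, …, p L, (0, H)` -/
noncomputable def mv (L : ℕ) (p : ℕ → ℝ × ℝ) (H : ℝ) : Fin (L + 2) → ℝ × ℝ :=
  fun t => if (t : ℕ) ≤ L then p t else (0, H)

/-- the chain is strictly `x`-monotone, starts on the vertical axis, is below the height `H` and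
ends at this height -/
structure Mountain (L : ℕ) (p : ℕ → ℝ × ℝ) (H : ℝ) : Prop where
  one_le : 1 ≤ L
  x0 : (p 0).1 = 0
  xs : ∀ t < L, (p t).1 < (p (t + 1)).1
  ys : ∀ t < L, (p t).2 < H
  yl : (p L).2 = H

theorem ori_cyc (A B C : ℝ × ℝ) : ori A B C = ori B C A := by
  simp only [ori, cr, Prod.fst_sub, Prod.snd_sub]; ring

/-- an exit through an edge is impossible if the `x`-ranges are separated (edge on the left) -/
theorem no_cross_left {A B p q : ℝ × ℝ} (hpq : p.1 < q.1) (hA : q.1 ≤ A.1) (hB : q.1 ≤ B.1)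
    (h1 : 0 < ori p q A) (h2 : ori p q B < 0) (h3 : ori A B p * ori A B q < 0) : False := by
  have e : ori p q A * B.1 - ori p q B * A.1 = ori A B q * p.1 - ori A B p * q.1 := by
    simp only [ori, cr, Prod.fst_sub, Prod.snd_sub]; ring
  have e2 : ori p q A - ori p q B = ori A B q - ori A B p := by
    simp only [ori, cr, Prod.fst_sub, Prod.snd_sub]; ring
  obtain ⟨o1, ho1⟩ : ∃ o, o = ori p q A := ⟨_, rfl⟩
  obtain ⟨o2, ho2⟩ : ∃ o, o = ori p q B := ⟨_, rfl⟩
  obtain ⟨o3, ho3⟩ : ∃ o, o = ori A B p := ⟨_, rfl⟩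
  obtain ⟨o4, ho4⟩ : ∃ o, o = ori A B q := ⟨_, rfl⟩
  rw [← ho1, ← ho2, ← ho3, ← ho4] at e e2
  rw [← ho1] at h1
  rw [← ho2] at h2
  rw [← ho3, ← ho4] at h3
  have h4 : 0 < o4 := by
    by_contra hc
    push Not at hc
    have h5 : o3 < 0 := by linarith
    nlinarith
  have h5 : 0 ≤ o1 * (B.1 - q.1) := mul_nonneg h1.le (by linarith)
  have h6 : 0 ≤ (-o2) * (A.1 - q.1) := mul_nonneg (by linarith) (by linarith)
  have h7 : 0 < o4 * (q.1 - p.1) := mul_pos h4 (by linarith)
  have h8 : o1 * (B.1 - q.1) + (-o2) * (A.1 - q.1) = - (o4 * (q.1 - p.1)) := by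
    linear_combination e - q.1 * e2
  linarith

/-- an exit through an edge is impossible if the `x`-ranges are separated (edge on the right) -/
theorem no_cross_right {A B p q : ℝ × ℝ} (hpq : p.1 < q.1) (hA : A.1 ≤ p.1) (hB : B.1 ≤ p.1)
    (h1 : 0 < ori p q A) (h2 : ori p q B < 0) (h3 : ori A B p * ori A B q < 0) : False := by
  have e : ori p q A * B.1 - ori p q B * A.1 = ori A B q * p.1 - ori A B p * q.1 := by
    simp only [ori, cr, Prod.fst_sub, Prod.snd_sub]; ring
  have e2 : ori p q A - ori p q B = ori A B q - ori A B p := by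
    simp only [ori, cr, Prod.fst_sub, Prod.snd_sub]; ring
  obtain ⟨o1, ho1⟩ : ∃ o, o = ori p q A := ⟨_, rfl⟩
  obtain ⟨o2, ho2⟩ : ∃ o, o = ori p q B := ⟨_, rfl⟩
  obtain ⟨o3, ho3⟩ : ∃ o, o = ori A B p := ⟨_, rfl⟩
  obtain ⟨o4, ho4⟩ : ∃ o, o = ori A B q := ⟨_, rfl⟩
  rw [← ho1, ← ho2, ← ho3, ← ho4] at e e2
  rw [← ho1] at h1
  rw [← ho2] at h2
  rw [← ho3, ← ho4] at h3
  have h4 : o3 < 0 := by
    by_contra hc
    push Not at hc
    have h5 : 0 < o4 := by linarith
    nlinarith
  have h5 : 0 ≤ o1 * (p.1 - B.1) := mul_nonneg h1.le (by linarith)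
  have h6 : 0 ≤ (-o2) * (p.1 - A.1) := mul_nonneg (by linarith) (by linarith)
  have h7 : 0 < (-o3) * (q.1 - p.1) := mul_pos (by linarith) (by linarith)
  have h8 : o1 * (p.1 - B.1) + (-o2) * (p.1 - A.1) = - ((-o3) * (q.1 - p.1)) := by
    linear_combination - e + p.1 * e2
  linarith

section
variable {L : ℕ} {p : ℕ → ℝ × ℝ} {H : ℝ} (hM : Mountain L p H)

theorem mv_le {t : Fin (L + 2)} (ht : (t : ℕ) ≤ L) : mv L p H t = p t := by
  unfold mv; rw [if_pos ht]

theorem mv_last {t : Fin (L + 2)} (ht : (t : ℕ) = L + 1) : mv L p H t = (0, H) := by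
  unfold mv; rw [if_neg (by omega)]

include hM

theorem x_lt {s t : ℕ} (hst : s < t) (ht : t ≤ L) : (p s).1 < (p t).1 := by
  induction t, hst using Nat.le_induction with
  | base => exact hM.xs s (by omega)
  | succ t hst ih => exact lt_trans (ih (by omega)) (hM.xs t (by omega))

theorem x_le {s t : ℕ} (hst : s ≤ t) (ht : t ≤ L) : (p s).1 ≤ (p t).1 := by
  rcases hst.eq_or_lt with rfl | h
  · exact le_rfl
  · exact (x_lt hM h ht).le

theorem x_lt_iff {s t : ℕ} (hs : s ≤ L) (ht : t ≤ L) : (p s).1 < (p t).1 ↔ s < t := by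
  constructor
  · intro h
    by_contra hc
    push Not at hc
    exact absurd h (not_lt.mpr (x_le hM hc hs))
  · intro h; exact x_lt hM h ht

theorem x_nonneg {t : ℕ} (ht : t ≤ L) : 0 ≤ (p t).1 := by
  rw [← hM.x0]; exact x_le hM (Nat.zero_le _) ht

theorem y_le {t : ℕ} (ht : t ≤ L) : (p t).2 ≤ H := by
  rcases ht.eq_or_lt with rfl | h
  · exact hM.yl.le
  · exact (hM.ys t h).le

theorem p_inj {s t : ℕ} (hs : s ≤ L) (ht : t ≤ L) (h : p s = p t) : s = t := by
  have h1 := (x_lt_iff hM hs ht).not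
  have h2 := (x_lt_iff hM ht hs).not
  rw [h] at h1 h2
  have h3 := h1.mp (lt_irrefl _)
  have h4 := h2.mp (lt_irrefl _)
  omega

theorem last_ne {t : ℕ} (ht : t ≤ L) : p t ≠ (0, H) := by
  intro h
  rcases ht.eq_or_lt with rfl | hlt
  · have h1 : (p t).1 = 0 := by rw [h]
    have h2 := x_lt hM (show 0 < t by have := hM.one_le; omega) le_rfl
    rw [hM.x0, h1] at h2
    exact lt_irrefl _ h2
  · have h1 := hM.ys t hlt
    rw [h] at h1
    exact lt_irrefl _ h1

theorem mv_inj : Function.Injective (mv L p H) := by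
  intro s t h
  by_cases hs : (s : ℕ) ≤ L
  · by_cases ht : (t : ℕ) ≤ L
    · rw [mv_le hs, mv_le ht] at h
      exact Fin.ext (p_inj hM hs ht h)
    · rw [mv_le hs, mv_last (by have := t.2; omega)] at h
      exact absurd h (last_ne hM hs)
  · by_cases ht : (t : ℕ) ≤ L
    · rw [mv_le ht, mv_last (by have := s.2; omega)] at h
      exact absurd h.symm (last_ne hM ht)
    · apply Fin.ext
      have := s.2; have := t.2; omega

omit hM in
theorem sc_lt {t : Fin (L + 2)} (ht : (t : ℕ) ≤ L) : ((sc t : Fin (L + 2)) : ℕ) = t + 1 := by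
  rw [sc_val, if_pos (by omega)]

omit hM in
theorem sc_last {t : Fin (L + 2)} (ht : (t : ℕ) = L + 1) : ((sc t : Fin (L + 2)) : ℕ) = 0 := by
  rw [sc_val, if_neg (by omega)]

/-- points of an edge of the chain -/
theorem chain_edge {t : Fin (L + 2)} (ht : (t : ℕ) < L) {q : ℝ × ℝ} (hq : q ∈ edge (mv L p H) t) :
    (p t).1 ≤ q.1 ∧ q.1 ≤ (p (t + 1)).1 ∧ (q.1 = (p t).1 → q = p t) ∧
      (q.1 = (p (t + 1)).1 → q = p (t + 1)) ∧ q.2 ≤ H ∧ (q.2 = H → (t : ℕ) + 1 = L ∧ q = p L) := by
  have h1 : mv L p H t = p t := mv_le ht.le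
  have h2 : mv L p H (sc t) = p (t + 1) := by
    rw [mv_le (by rw [sc_lt ht.le]; omega), sc_lt ht.le]
  unfold edge at hq
  have h2' : mv L p H (finRotate (L + 2) t) = p (t + 1) := h2
  rw [h1, h2'] at hq
  obtain ⟨a, ha0, ha1, rfl⟩ := seg_param.1 hq
  have hx := hM.xs t ht
  have hy1 := hM.ys t ht
  have hy2 : (p (t + 1)).2 ≤ H := y_le hM (by omega)
  simp only [Prod.fst_add, Prod.smul_fst, Prod.fst_sub, smul_eq_mul, Prod.snd_add, Prod.smul_snd,
    Prod.snd_sub]
  refine ⟨by nlinarith, by nlinarith, ?_, ?_, by nlinarith, ?_⟩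
  · intro h
    have : a * ((p (t + 1)).1 - (p t).1) = 0 := by linarith
    rcases mul_eq_zero.mp this with h | h
    · rw [h]; simp
    · linarith
  · intro h
    have : (a - 1) * ((p (t + 1)).1 - (p t).1) = 0 := by linarith
    rcases mul_eq_zero.mp this with h | h
    · have : a = 1 := by linarith
      rw [this]; simp
    · linarith
  · intro h
    have ha : a = 1 := by
      by_contra hc
      have : a < 1 := lt_of_le_of_ne ha1 hc
      nlinarith
    rw [ha] at h ⊢
    have hL : (t : ℕ) + 1 = L := by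
      by_contra hc
      have := hM.ys (t + 1) (by omega)
      linarith
    refine ⟨hL, ?_⟩
    rw [hL]; simp

/-- points of the horizontal edge -/
theorem top_edge {t : Fin (L + 2)} (ht : (t : ℕ) = L) {q : ℝ × ℝ} (hq : q ∈ edge (mv L p H) t) :
    q.2 = H ∧ 0 ≤ q.1 ∧ q.1 ≤ (p L).1 ∧ (q.1 = 0 → q = (0, H)) ∧ (q.1 = (p L).1 → q = p L) := by
  have h1 : mv L p H t = p L := by rw [mv_le ht.le, ht]
  have h2 : mv L p H (finRotate (L + 2) t) = (0, H) := by
    have : ((sc t : Fin (L + 2)) : ℕ) = L + 1 := by rw [sc_lt ht.le, ht]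
    exact mv_last this
  unfold edge at hq
  rw [h1, h2] at hq
  obtain ⟨a, ha0, ha1, rfl⟩ := seg_param.1 hq
  have hx : 0 ≤ (p L).1 := x_nonneg hM le_rfl
  have hx' : 0 < (p L).1 := by
    have := x_lt hM (show 0 < L by have := hM.one_le; omega) le_rfl
    rwa [hM.x0] at this
  have hy := hM.yl
  simp only [Prod.fst_add, Prod.smul_fst, Prod.fst_sub, smul_eq_mul, Prod.snd_add, Prod.smul_snd,
    Prod.snd_sub]
  refine ⟨by rw [hy]; ring, by nlinarith, by nlinarith, ?_, ?_⟩
  · intro h
    have : (1 - a) * (p L).1 = 0 := by linarith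
    rcases mul_eq_zero.mp this with h | h
    · have : a = 1 := by linarith
      rw [this]; simp
    · linarith
  · intro h
    have : a * (p L).1 = 0 := by linarith
    rcases mul_eq_zero.mp this with h | h
    · rw [h]; simp
    · linarith

/-- points of the vertical edge -/
theorem side_edge {t : Fin (L + 2)} (ht : (t : ℕ) = L + 1) {q : ℝ × ℝ}
    (hq : q ∈ edge (mv L p H) t) : q.1 = 0 ∧ q.2 ≤ H ∧ (q.2 = H → q = (0, H)) := by
  have h1 : mv L p H t = (0, H) := mv_last ht
  have h2 : mv L p H (finRotate (L + 2) t) = p 0 := by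
    have : ((sc t : Fin (L + 2)) : ℕ) = 0 := sc_last ht
    change mv L p H (sc t) = p 0
    rw [mv_le (by omega), this]
  unfold edge at hq
  rw [h1, h2] at hq
  obtain ⟨a, ha0, ha1, rfl⟩ := seg_param.1 hq
  have hy := hM.ys 0 (by have := hM.one_le; omega)
  have hx := hM.x0
  simp only [Prod.fst_add, Prod.smul_fst, Prod.fst_sub, smul_eq_mul, Prod.snd_add, Prod.smul_snd,
    Prod.snd_sub]
  refine ⟨by rw [hx]; ring, by nlinarith, ?_⟩
  intro h
  have : a * ((p 0).2 - H) = 0 := by linarith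
  rcases mul_eq_zero.mp this with h | h
  · rw [h]; simp
  · linarith

theorem curve_y_le {q : ℝ × ℝ} (hq : q ∈ curve (mv L p H)) : q.2 ≤ H := by
  obtain ⟨t, ht⟩ := mem_iUnion.1 hq
  rcases lt_trichotomy (t : ℕ) L with h | h | h
  · exact (chain_edge hM h ht).2.2.2.2.1
  · exact (top_edge hM h ht).1.le
  · exact (side_edge hM (by have := t.2; omega) ht).2.1

/-- half of the simplicity -/
theorem simple_lt {i j : Fin (L + 2)} (hij : (i : ℕ) < j) {q : ℝ × ℝ}
    (hi : q ∈ edge (mv L p H) i) (hj : q ∈ edge (mv L p H) j) :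
    (q = mv L p H i ∨ q = mv L p H (sc i)) ∧ (q = mv L p H j ∨ q = mv L p H (sc j)) := by
  have hj2 := j.2
  rcases lt_trichotomy (j : ℕ) L with h | h | h
  · -- both on the chain
    have hiL : (i : ℕ) < L := by omega
    obtain ⟨a1, a2, a3, a4, -, -⟩ := chain_edge hM hiL hi
    obtain ⟨b1, b2, b3, b4, -, -⟩ := chain_edge hM h hj
    have h1 : (p (i + 1)).1 ≤ (p j).1 := x_le hM (by omega) h.le
    have h2 : q.1 = (p (i + 1)).1 := by linarith
    have h3 : q.1 = (p j).1 := by linarith
    refine ⟨Or.inr ?_, Or.inl ?_⟩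
    · rw [mv_le (by rw [sc_lt hiL.le]; omega), sc_lt hiL.le]; exact a4 h2
    · rw [mv_le h.le]; exact b3 h3
  · -- `j` is the horizontal edge
    have hiL : (i : ℕ) < L := by omega
    obtain ⟨-, -, -, -, -, a6⟩ := chain_edge hM hiL hi
    obtain ⟨b1, -, -, -, -⟩ := top_edge hM h hj
    obtain ⟨h1, h2⟩ := a6 b1
    refine ⟨Or.inr ?_, Or.inl ?_⟩
    · rw [mv_le (by rw [sc_lt hiL.le]; omega), sc_lt hiL.le, h1]; exact h2
    · rw [mv_le h.le, h]; exact h2
  · -- `j` is the vertical edge
    have hjL : (j : ℕ) = L + 1 := by omega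
    obtain ⟨b1, b2, b3⟩ := side_edge hM hjL hj
    rcases Nat.lt_or_ge (i : ℕ) L with hiL | hiL
    · obtain ⟨a1, a2, a3, a4, -, -⟩ := chain_edge hM hiL hi
      have h0 : (i : ℕ) = 0 := by
        by_contra hc
        have := x_lt hM (show 0 < (i : ℕ) by omega) hiL.le
        rw [hM.x0] at this
        linarith
      have h1 : q = p i := a3 (by rw [h0, hM.x0]; exact b1)
      refine ⟨Or.inl ?_, Or.inr ?_⟩
      · rw [mv_le hiL.le]; exact h1
      · have h2 : ((sc j : Fin (L + 2)) : ℕ) = 0 := sc_last hjL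
        rw [mv_le (by omega), h2, h1, h0]
    · have hi' : (i : ℕ) = L := by omega
      obtain ⟨a1, a2, a3, a4, a5⟩ := top_edge hM hi' hi
      have h1 := a4 b1
      refine ⟨Or.inr ?_, Or.inl ?_⟩
      · have : ((sc i : Fin (L + 2)) : ℕ) = L + 1 := by rw [sc_lt hi'.le, hi']
        rw [mv_last this]; exact h1
      · rw [mv_last hjL]; exact h1

theorem mtn_simp : Simp (mv L p H) := by
  refine ⟨by have := hM.one_le; omega, mv_inj hM, ?_⟩
  rintro i j hij q ⟨hi, hj⟩
  rcases lt_or_gt_of_ne (fun h => hij (Fin.ext h) : (i : ℕ) ≠ j) with h | h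
  · obtain ⟨h1, h2⟩ := simple_lt hM h hi hj
    exact ⟨h1, h2⟩
  · obtain ⟨h1, h2⟩ := simple_lt hM h hj hi
    exact ⟨h2, h1⟩

theorem mtn_region : ∃ P, IsSimplePolygon (mv L p H) P := REG_holds KEY_holds _ _ (mtn_simp hM)

/-- the interior is on the left -/
theorem mtn_side {P : Set (ℝ × ℝ)} (h : IsSimplePolygon (mv L p H) P) {σ : ℝ}
    (hσ : σ = 1 ∨ σ = -1) (hint : ∀ k, Ev (mv L p H) (interior P) σ k) : σ = 1 := by
  rcases hσ with hσ | hσ
  · exact hσ
  exfalso
  rw [hσ] at hint
  obtain ⟨k, hk⟩ : ∃ k : Fin (L + 2), (k : ℕ) = L + 1 := ⟨⟨L + 1, by omega⟩, rfl⟩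
  have hvk : mv L p H k = (0, H) := mv_last hk
  have hsc : mv L p H (sc k) = p 0 := by
    have h1 : ((sc k : Fin (L + 2)) : ℕ) = 0 := sc_last hk
    rw [mv_le (by omega), h1]
  have hpd : mv L p H (pd k) = p L := by
    have h1 : sc (pd k) = k := sc_pd k
    have h2 : ((pd k : Fin (L + 2)) : ℕ) = L := by
      by_contra hc
      by_cases hle : ((pd k : Fin (L + 2)) : ℕ) ≤ L
      · have h3 := sc_lt hle
        rw [h1] at h3
        omega
      · have h3 := sc_last (t := pd k) (by have := (pd k).2; omega)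
        rw [h1] at h3
        omega
    rw [mv_le h2.le, h2]
  obtain ⟨δ, hδ, hEv⟩ := hint k
  have hxL : 0 < (p L).1 := by
    have := x_lt hM (show 0 < L by have := hM.one_le; omega) le_rfl
    rwa [hM.x0] at this
  have hy0 := hM.ys 0 (by have := hM.one_le; omega)
  have hyL := hM.yl
  have hx0 := hM.x0
  have hmem : ((0 : ℝ), δ / 2) ∈ Sec (-1) (wd (mv L p H) k) (ud (mv L p H) k) := by
    right
    unfold wd ud
    rw [hvk, hsc, hpd]
    simp only [cr, Prod.fst_sub, Prod.snd_sub]
    rw [hx0, hyL]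
    refine ⟨?_, Or.inr ?_⟩
    · nlinarith
    · nlinarith
  have hnorm : ‖((0 : ℝ), δ / 2)‖ < δ := by
    rw [Prod.norm_def]
    simp only [norm_zero, Real.norm_eq_abs]
    rw [abs_of_pos (by linarith)]
    exact max_lt hδ (by linarith)
  have hin := hEv _ hmem hnorm
  rw [hvk] at hin
  -- the vertical ray
  set S : Set (ℝ × ℝ) := (fun y : ℝ => ((0 : ℝ), y)) '' Ici (H + δ / 2) with hS
  have hSc : IsPreconnected S := by
    apply isPreconnected_Ici.image
    exact (Continuous.prodMk continuous_const continuous_id).continuousOn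
  have hSd : Disjoint S (curve (mv L p H)) := by
    rw [Set.disjoint_left]
    rintro q ⟨y, hy, rfl⟩ hq
    have := curve_y_le hM hq
    simp only [mem_Ici] at hy
    simp only at this
    linarith
  have hSn : (S ∩ interior P).Nonempty := by
    refine ⟨_, ⟨H + δ / 2, by simp, rfl⟩, ?_⟩
    have e : ((0 : ℝ), H) + ((0 : ℝ), δ / 2) = ((0 : ℝ), H + δ / 2) := by
      ext <;> simp
    change ((0 : ℝ), H + δ / 2) ∈ interior P
    rw [← e]; exact hin
  have hsub := absorbs_int h S hSc hSd hSn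
  obtain ⟨R, hR⟩ := h.compact.isBounded.exists_norm_le
  have h1 : ((0 : ℝ), max (H + δ / 2) (R + 1)) ∈ P :=
    interior_subset (hsub ⟨_, by simp, rfl⟩)
  have h2 := hR _ h1
  rw [Prod.norm_def] at h2
  simp only [norm_zero, Real.norm_eq_abs] at h2
  have h3 := le_max_right (0 : ℝ) |max (H + δ / 2) (R + 1)|
  have h4 := le_abs_self (max (H + δ / 2) (R + 1))
  have h5 := le_max_right (H + δ / 2) (R + 1)
  linarith

/-- not visible: the segment starts outside -/
theorem mtn_not_visible {P : Set (ℝ × ℝ)} (h : IsSimplePolygon (mv L p H) P) {s t : Fin (L + 2)}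
    (hst : s ≠ t)
    (hsec : mv L p H t - mv L p H s ∈ Sec (-1) (wd (mv L p H) s) (ud (mv L p H) s)) :
    ¬ segment ℝ (mv L p H s) (mv L p H t) ⊆ P := by
  obtain ⟨σ, hσ, hint, hext⟩ := oriented h
  have h1 := mtn_side hM h hσ hint
  subst h1
  apply not_visible_of_exit h hσ hext hst
  left
  refine ⟨s, hst, ?_, ?_, hsec⟩
  · simp only [ori, cr, Prod.fst_sub, Prod.snd_sub]; ring
  · simp only [dotp]; simp

/-- visible: all vertices between are strictly below the segment -/
theorem mtn_visible {P : Set (ℝ × ℝ)} (h : IsSimplePolygon (mv L p H) P) {s t : Fin (L + 2)}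
    (hs : (s : ℕ) ≤ L) (ht : (t : ℕ) ≤ L) (hst : s ≠ t)
    (hb1 : ∀ r : ℕ, (s : ℕ) < r → r < t → ori (p s) (p t) (p r) < 0)
    (hb2 : ∀ r : ℕ, (t : ℕ) < r → r < s → 0 < ori (p s) (p t) (p r))
    (hsec : mv L p H t - mv L p H s ∉ Sec (-1) (wd (mv L p H) s) (ud (mv L p H) s)) :
    segment ℝ (mv L p H s) (mv L p H t) ⊆ P := by
  by_contra hnv
  obtain ⟨σ, hσ, hint, hext⟩ := oriented h
  have h1 := mtn_side hM h hσ hint
  subst h1
  have hst' : (s : ℕ) ≠ t := fun hh => hst (Fin.ext hh)
  have evs : mv L p H s = p s := mv_le hs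
  have evt : mv L p H t = p t := mv_le ht
  have hoA : ori (p s) (p t) (p s) = 0 := by
    simp only [ori, cr, Prod.fst_sub, Prod.snd_sub]; ring
  have hoB : ori (p s) (p t) (p t) = 0 := by
    simp only [ori, cr, Prod.fst_sub, Prod.snd_sub]; ring
  rcases exit_of_not_visible h hσ hint hext hst hnv with ⟨k, hkt, h1, h2, h3⟩ | ⟨l, h1, h2, h3⟩
  · -- exit at a vertex
    by_cases hks : k = s
    · rw [hks] at h3; exact hsec h3
    have hvst : mv L p H s ≠ mv L p H t := fun hh => hst (mv_inj hM hh)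
    obtain ⟨a, ha0, ha1, hk⟩ := between hvst h1 h2
    have ha0' : 0 < a := by
      rcases ha0.eq_or_lt with h0 | h0
      · rw [← h0] at hk
        simp only [zero_smul, add_zero] at hk
        exact absurd (mv_inj hM hk) hks
      · exact h0
    have ha1' : a < 1 := by
      rcases ha1.eq_or_lt with h0 | h0
      · rw [h0] at hk
        simp only [one_smul, add_sub_cancel] at hk
        exact absurd (mv_inj hM hk) hkt
      · exact h0
    rw [evs, evt] at hk
    have hkx : (mv L p H k).1 = (p s).1 + a * ((p t).1 - (p s).1) := by rw [hk]; simp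
    have hky : (mv L p H k).2 = (p s).2 + a * ((p t).2 - (p s).2) := by rw [hk]; simp
    by_cases hkL : (k : ℕ) ≤ L
    · rw [mv_le hkL] at hkx
      rw [evs, evt, mv_le hkL] at h1
      rcases lt_or_gt_of_ne hst' with hlt | hlt
      · have hx := x_lt hM hlt ht
        have g1 : (s : ℕ) < k := (x_lt_iff hM hs hkL).mp (by nlinarith)
        have g2 : (k : ℕ) < t := (x_lt_iff hM hkL ht).mp (by nlinarith)
        have := hb1 k g1 g2
        linarith
      · have hx := x_lt hM hlt hs
        have g1 : (k : ℕ) < s := (x_lt_iff hM hkL hs).mp (by nlinarith)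
        have g2 : (t : ℕ) < k := (x_lt_iff hM ht hkL).mp (by nlinarith)
        have := hb2 k g2 g1
        linarith
    · rw [mv_last (by have := k.2; omega)] at hky
      simp only at hky
      rcases lt_or_gt_of_ne hst' with hlt | hlt
      · have y1 := hM.ys s (by omega)
        have y2 := y_le hM ht
        nlinarith
      · have y1 := hM.ys t (by omega)
        have y2 := y_le hM hs
        nlinarith
  · -- exit through an edge
    rw [one_mul] at h1 h2
    rw [evs] at h1
    rw [evt] at h2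
    rw [evs, evt] at h3
    rcases lt_trichotomy (l : ℕ) L with hl | hl | hl
    · have el : mv L p H l = p l := mv_le hl.le
      have esl : mv L p H (sc l) = p (l + 1) := by
        rw [mv_le (by rw [sc_lt hl.le]; omega), sc_lt hl.le]
      rw [el, esl] at h1 h2 h3
      have hpq := hM.xs l hl
      rcases lt_or_gt_of_ne hst' with hlt | hlt
      · rcases Nat.lt_or_ge (l : ℕ) s with c1 | c1
        · exact no_cross_left hpq (x_le hM (by omega) hs) (x_le hM (by omega) ht) h1 h2 h3
        rcases Nat.lt_or_ge (l : ℕ) t with c2 | c2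
        · have o1 : ori (p s) (p t) (p l) ≤ 0 := by
            rcases c1.eq_or_lt with c | c
            · rw [← c, hoA]
            · exact (hb1 l c c2).le
          have o2 : ori (p s) (p t) (p (l + 1)) ≤ 0 := by
            rcases (Nat.succ_le_of_lt c2).eq_or_lt with c | c
            · have : (l : ℕ) + 1 = t := c
              rw [this, hoB]
            · exact (hb1 (l + 1) (by omega) c).le
          nlinarith
        · exact no_cross_right hpq (x_le hM (by omega) hl.le) (x_le hM (by omega) hl.le) h1 h2 h3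
      · rcases Nat.lt_or_ge (l : ℕ) t with c1 | c1
        · exact no_cross_left hpq (x_le hM (by omega) hs) (x_le hM (by omega) ht) h1 h2 h3
        rcases Nat.lt_or_ge (l : ℕ) s with c2 | c2
        · have o1 : 0 ≤ ori (p s) (p t) (p l) := by
            rcases c1.eq_or_lt with c | c
            · rw [← c, hoB]
            · exact (hb2 l c c2).le
          have o2 : 0 ≤ ori (p s) (p t) (p (l + 1)) := by
            rcases (Nat.succ_le_of_lt c2).eq_or_lt with c | c
            · have : (l : ℕ) + 1 = s := c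
              rw [this, hoA]
            · exact (hb2 (l + 1) (by omega) c).le
          nlinarith
        · exact no_cross_right hpq (x_le hM (by omega) hl.le) (x_le hM (by omega) hl.le) h1 h2 h3
    · have el : mv L p H l = p L := by rw [mv_le hl.le, hl]
      have esl : mv L p H (sc l) = (0, H) := by
        have : ((sc l : Fin (L + 2)) : ℕ) = L + 1 := by rw [sc_lt hl.le, hl]
        exact mv_last this
      rw [el, esl] at h2
      simp only [ori, cr, Prod.fst_sub, Prod.snd_sub] at h2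
      have hy := y_le hM ht
      have hyL := hM.yl
      have hxL := x_nonneg hM (le_refl L)
      rw [hyL] at h2
      nlinarith
    · have hl' : (l : ℕ) = L + 1 := by have := l.2; omega
      have el : mv L p H l = (0, H) := mv_last hl'
      have esl : mv L p H (sc l) = p 0 := by
        have : ((sc l : Fin (L + 2)) : ℕ) = 0 := sc_last hl'
        rw [mv_le (by omega), this]
      rw [el, esl] at h2
      simp only [ori, cr, Prod.fst_sub, Prod.snd_sub] at h2
      have hy := hM.ys 0 (by have := hM.one_le; omega)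
      have hx := x_nonneg hM ht
      have hx0 := hM.x0
      rw [hx0] at h2
      nlinarith

end

end Pool.Agent.K6.H22.VG
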