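import Mathlib
import Pool.Agent.K6.H22.VG.Mtn

/-!
# A family of mountains: a parabola with deep pits
-/

set_option autoImplicit false

namespace Pool.Agent.K6.H22.VG

open Vis124 H612BB Set Filter Topology

/-- the number of the parabola point at (or next to) the chain vertex `t` -/
def base (m t : ℕ) : ℕ := if t ≤ 2 * m then (t + 1) / 2 else t - m

/-- the chain vertex `t` is a pit -/
def pit (m t : ℕ) : Prop := t < 2 * m ∧ t % 2 = 1

instance (m t : ℕ) : Decidable (pit m t) := by unfold pit; infer_instance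

/-- the slope at the pit `i` -/
noncomputable def sl (a : ℕ → ℕ) (i : ℕ) : ℝ := (i : ℝ) + a i - 1 / 2

/-- the depth -/
noncomputable def dep (m : ℕ) (τ : ℝ) (t : ℕ) : ℝ := if pit m t then τ else 0

/-- the chain -/
noncomputable def ch (m : ℕ) (a : ℕ → ℕ) (τ : ℝ) (t : ℕ) : ℝ × ℝ :=
  ((base m t : ℝ) - dep m τ t, (base m t : ℝ) ^ 2 - dep m τ t * sl a (base m t))

theorem ch_pit {m : ℕ} {a : ℕ → ℕ} {τ : ℝ} {i : ℕ} (h1 : 1 ≤ i) (h2 : i ≤ m) :
    ch m a τ (2 * i - 1) = ((i : ℝ) - τ, (i : ℝ) ^ 2 - τ * sl a i) := by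
  have hb : base m (2 * i - 1) = i := by unfold base; rw [if_pos (by omega)]; omega
  have hp : pit m (2 * i - 1) := ⟨by omega, by omega⟩
  unfold ch dep
  rw [hb, if_pos hp]

/-- the index of the parabola point `k` -/
def ic (m k : ℕ) : ℕ := if k ≤ m then 2 * k else k + m

theorem base_ic (m k : ℕ) : base m (ic m k) = k := by
  unfold base ic; split_ifs <;> omega

theorem ch_ic {m : ℕ} {a : ℕ → ℕ} {τ : ℝ} (k : ℕ) :
    ch m a τ (ic m k) = ((k : ℝ), (k : ℝ) ^ 2) := by
  have hp : ¬ pit m (ic m k) := by unfold pit ic; split_ifs <;> omega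
  unfold ch dep
  rw [base_ic, if_neg hp]
  simp

theorem continuous_ch (m : ℕ) (a : ℕ → ℕ) (t : ℕ) : Continuous (fun τ : ℝ => ch m a τ t) := by
  unfold ch dep
  by_cases h : pit m t
  · simp only [if_pos h]; fun_prop
  · simp only [if_neg h]; fun_prop

theorem ch_zero (m : ℕ) (a : ℕ → ℕ) (t : ℕ) :
    ch m a 0 t = ((base m t : ℝ), (base m t : ℝ) ^ 2) := by
  unfold ch dep
  simp

theorem continuous_ori {f g h : ℝ → ℝ × ℝ} (hf : Continuous f) (hg : Continuous g)
    (hh : Continuous h) : Continuous (fun τ => ori (f τ) (g τ) (h τ)) := by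
  unfold ori cr; fun_prop

theorem ev_of_pos {f : ℝ → ℝ} (hf : Continuous f) (h0 : 0 < f 0) :
    ∀ᶠ τ in 𝓝[>] (0 : ℝ), 0 < f τ :=
  mem_nhdsWithin_of_mem_nhds ((hf.tendsto 0).eventually (lt_mem_nhds h0))

/-- three chain points with increasing bases turn left -/
theorem ev_G1 (m : ℕ) (a : ℕ → ℕ) {r s t : ℕ} (h1 : base m r < base m s)
    (h2 : base m s < base m t) :
    ∀ᶠ τ in 𝓝[>] (0 : ℝ), 0 < ori (ch m a τ r) (ch m a τ s) (ch m a τ t) := by
  apply ev_of_pos (continuous_ori (continuous_ch m a r) (continuous_ch m a s)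
    (continuous_ch m a t))
  rw [ch_zero, ch_zero, ch_zero]
  have h1' : (base m r : ℝ) < base m s := by exact_mod_cast h1
  have h2' : (base m s : ℝ) < base m t := by exact_mod_cast h2
  simp only [ori, cr, Prod.fst_sub, Prod.snd_sub]
  have e : ((base m s : ℝ) - base m r) * ((base m t : ℝ) ^ 2 - (base m r : ℝ) ^ 2) -
      ((base m s : ℝ) ^ 2 - (base m r : ℝ) ^ 2) * ((base m t : ℝ) - base m r) =
      ((base m s : ℝ) - base m r) * ((base m t : ℝ) - base m r) *
        ((base m t : ℝ) - base m s) := by ring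
  rw [e]
  exact mul_pos (mul_pos (by linarith) (by linarith)) (by linarith)

/-- pit, parabola point at the pit, another point -/
theorem ori_pit (m : ℕ) (a : ℕ → ℕ) (τ : ℝ) {i : ℕ} (h1 : 1 ≤ i) (h2 : i ≤ m) (X : ℝ × ℝ) :
    ori (ch m a τ (2 * i - 1)) (ch m a τ (ic m i)) X =
      τ * (X.2 - (i : ℝ) ^ 2 - sl a i * (X.1 - i)) := by
  rw [ch_pit h1 h2, ch_ic]
  simp only [ori, cr, Prod.fst_sub, Prod.snd_sub]
  ring

theorem ori_pit_c (m : ℕ) (a : ℕ → ℕ) (τ : ℝ) {i : ℕ} (h1 : 1 ≤ i) (h2 : i ≤ m) (k : ℕ) :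
    ori (ch m a τ (2 * i - 1)) (ch m a τ (ic m i)) (ch m a τ (ic m k)) =
      τ * (((k : ℝ) - i) * (k - a i + 1 / 2)) := by
  rw [ori_pit m a τ h1 h2, ch_ic]
  unfold sl
  ring

theorem half_pos' {k b : ℕ} (h : b ≤ k) : 0 < (k : ℝ) - b + 1 / 2 := by
  have : (b : ℝ) ≤ k := by exact_mod_cast h
  linarith

theorem half_neg' {k b : ℕ} (h : k < b) : (k : ℝ) - b + 1 / 2 < 0 := by
  have : (k : ℝ) + 1 ≤ b := by exact_mod_cast h
  linarith

theorem G2_left (m : ℕ) (a : ℕ → ℕ) {τ : ℝ} (hτ : 0 < τ) {i : ℕ} (h1 : 1 ≤ i) (h2 : i ≤ m)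
    (ha : i < a i) {k : ℕ} (hk : k < i) :
    0 < ori (ch m a τ (2 * i - 1)) (ch m a τ (ic m i)) (ch m a τ (ic m k)) := by
  rw [ori_pit_c m a τ h1 h2]
  have h3 := half_neg' (show k < a i by omega)
  have h4 : (k : ℝ) < i := by exact_mod_cast hk
  exact mul_pos hτ (mul_pos_of_neg_of_neg (by linarith) h3)

theorem G2_mid (m : ℕ) (a : ℕ → ℕ) {τ : ℝ} (hτ : 0 < τ) {i : ℕ} (h1 : 1 ≤ i) (h2 : i ≤ m)
    {k : ℕ} (hk : i < k) (hk2 : k < a i) :
    ori (ch m a τ (2 * i - 1)) (ch m a τ (ic m i)) (ch m a τ (ic m k)) < 0 := by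
  rw [ori_pit_c m a τ h1 h2]
  have h3 := half_neg' hk2
  have h4 : (i : ℝ) < k := by exact_mod_cast hk
  exact mul_neg_of_pos_of_neg hτ (mul_neg_of_pos_of_neg (by linarith) h3)

theorem G2_right (m : ℕ) (a : ℕ → ℕ) {τ : ℝ} (hτ : 0 < τ) {i : ℕ} (h1 : 1 ≤ i) (h2 : i ≤ m)
    (ha : i < a i) {k : ℕ} (hk : a i ≤ k) :
    0 < ori (ch m a τ (2 * i - 1)) (ch m a τ (ic m i)) (ch m a τ (ic m k)) := by
  rw [ori_pit_c m a τ h1 h2]
  have h3 := half_pos' hk
  have h4 : (i : ℝ) < k := by exact_mod_cast (show i < k by omega)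
  exact mul_pos hτ (mul_pos (by linarith) h3)

/-- the ordering of the bases -/
theorem base_step {m t : ℕ} (h : ¬ pit m t) : base m (t + 1) = base m t + 1 := by
  unfold base pit at *
  split_ifs <;> omega

theorem base_step' {m t : ℕ} (h : pit m t) : base m (t + 1) = base m t := by
  unfold base pit at *
  split_ifs <;> omega

theorem mountain {m M : ℕ} (hM : 1 ≤ M) (a : ℕ → ℕ) {τ : ℝ} (hτ : 0 < τ) (hτ1 : τ < 1) :
    Mountain (2 * m + M) (ch m a τ) (((m + M : ℕ) : ℝ) ^ 2) := by
  constructor
  · omega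
  · have h0 : ¬ pit m 0 := by unfold pit; omega
    have h1 : base m 0 = 0 := by unfold base; simp
    unfold ch dep
    rw [if_neg h0, h1]; simp
  · intro t ht
    unfold ch
    simp only
    by_cases hp : pit m t
    · have hp' : ¬ pit m (t + 1) := by unfold pit at *; omega
      rw [base_step' hp]
      unfold dep
      rw [if_pos hp, if_neg hp']
      linarith
    · rw [base_step hp]
      have h1 : dep m τ (t + 1) ≤ τ := by
        unfold dep; split_ifs
        · exact le_rfl
        · exact hτ.le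
      have h2 : dep m τ t = 0 := by unfold dep; rw [if_neg hp]
      rw [h2]
      push_cast
      linarith
  · intro t ht
    unfold ch
    simp only
    have hb : base m t < m + M := by unfold base; split_ifs <;> omega
    have hb' : (base m t : ℝ) < ((m + M : ℕ) : ℝ) := by exact_mod_cast hb
    have hb0 : (0 : ℝ) ≤ base m t := Nat.cast_nonneg _
    have h1 : 0 ≤ dep m τ t * sl a (base m t) := by
      unfold dep
      split_ifs with hp
      · apply mul_nonneg hτ.le
        unfold sl
        have h1 : 1 ≤ base m t := by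
          unfold base pit at *; split_ifs <;> omega
        have h2 : (1 : ℝ) ≤ base m t := by exact_mod_cast h1
        have h3 : (0 : ℝ) ≤ a (base m t) := Nat.cast_nonneg _
        linarith
      · simp
    nlinarith
  · have h0 : ¬ pit m (2 * m + M) := by unfold pit; omega
    have h1 : base m (2 * m + M) = m + M := by unfold base; split_ifs <;> omega
    unfold ch dep
    rw [if_neg h0, h1]; simp

/-- the visibility facts about the pits -/
theorem vis_facts {m M L : ℕ} (hL : L = 2 * m + M) (a : ℕ → ℕ)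
    (ha : ∀ i, 1 ≤ i → i ≤ m → m < a i) {τ H : ℝ} (hτ : 0 < τ)
    (hMt : Mountain L (ch m a τ) H)
    (G1 : ∀ r ≤ L, ∀ s ≤ L, ∀ t ≤ L, base m r < base m s →
      base m s < base m t → 0 < ori (ch m a τ r) (ch m a τ s) (ch m a τ t))
    {P : Set (ℝ × ℝ)} (hP : IsSimplePolygon (mv L (ch m a τ) H) P)
    {i k : ℕ} (hi1 : 1 ≤ i) (hi2 : i ≤ m) (hk : k ≤ m + M)
    {s t : Fin (L + 2)} (hs : (s : ℕ) = 2 * i - 1) (ht : (t : ℕ) = ic m k) :
    (visGraph (mv L (ch m a τ) H) P).Adj s t ↔ (k ≤ i ∨ a i ≤ k) := by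
  have hai := ha i hi1 hi2
  have hicL : ic m k ≤ L := by unfold ic; split_ifs <;> omega
  have hsL : (s : ℕ) ≤ L := by omega
  have htL : (t : ℕ) ≤ L := by omega
  have hst : s ≠ t := by
    intro h
    have h1 : (s : ℕ) = t := by rw [h]
    rw [hs, ht] at h1
    unfold ic at h1
    split_ifs at h1 <;> omega
  have evs : mv L (ch m a τ) H s = ch m a τ (2 * i - 1) := by rw [mv_le hsL, hs]
  have evt : mv L (ch m a τ) H t = ch m a τ (ic m k) := by rw [mv_le htL, ht]
  -- the neighbours of the pit
  have hsc : mv L (ch m a τ) H (sc s) = ch m a τ (ic m i) := by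
    have h1 := sc_lt hsL
    have h2 : ((sc s : Fin (L + 2)) : ℕ) = ic m i := by
      rw [h1, hs]; unfold ic; rw [if_pos hi2]; omega
    rw [mv_le (by rw [h2]; unfold ic; rw [if_pos hi2]; omega), h2]
  have hpd : mv L (ch m a τ) H (pd s) = ch m a τ (ic m (i - 1)) := by
    have h1 : sc (pd s) = s := sc_pd s
    have h2 : ((pd s : Fin (L + 2)) : ℕ) = ic m (i - 1) := by
      unfold ic; rw [if_pos (by omega)]
      by_cases hle : ((pd s : Fin (L + 2)) : ℕ) ≤ L
      · have h3 := sc_lt hle
        rw [h1] at h3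
        omega
      · have h3 := sc_last (t := pd s) (by have := (pd s).2; omega)
        rw [h1] at h3
        omega
    rw [mv_le (by rw [h2]; unfold ic; rw [if_pos (by omega)]; omega), h2]
  have hw : wd (mv L (ch m a τ) H) s = ch m a τ (ic m i) - ch m a τ (2 * i - 1) := by
    unfold wd; rw [hsc, evs]
  have hu : ud (mv L (ch m a τ) H) s = ch m a τ (ic m (i - 1)) - ch m a τ (2 * i - 1) := by
    unfold ud; rw [hpd, evs]
  have bs : base m (2 * i - 1) = i := by unfold base; rw [if_pos (by omega)]; omega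
  have hwu := G2_left m a hτ hi1 hi2 (by omega) (show i - 1 < i by omega)
  have hicm : ic m (i - 1) ≤ L := by unfold ic; rw [if_pos (by omega)]; omega
  constructor
  · rintro ⟨-, h1⟩
    by_contra hc
    push Not at hc
    refine mtn_not_visible hMt hP hst ?_ h1
    rw [hw, hu, evt, evs]
    right
    refine ⟨?_, Or.inl ?_⟩
    · have : cr (ch m a τ (ic m i) - ch m a τ (2 * i - 1))
        (ch m a τ (ic m (i - 1)) - ch m a τ (2 * i - 1)) =
        ori (ch m a τ (2 * i - 1)) (ch m a τ (ic m i)) (ch m a τ (ic m (i - 1))) := rfl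
      rw [this]; linarith
    · have h2 := G2_mid m a hτ hi1 hi2 hc.1 hc.2
      have : cr (ch m a τ (ic m i) - ch m a τ (2 * i - 1))
        (ch m a τ (ic m k) - ch m a τ (2 * i - 1)) =
        ori (ch m a τ (2 * i - 1)) (ch m a τ (ic m i)) (ch m a τ (ic m k)) := rfl
      rw [this]; linarith
  · intro hk2
    refine ⟨hst, mtn_visible hMt hP hsL htL hst ?_ ?_ ?_⟩
    · -- vertices between, to the right
      intro r hr1 hr2
      rw [hs] at hr1
      rw [ht] at hr2
      rw [hs, ht]
      have hik : a i ≤ k := by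
        rcases hk2 with h | h
        · exfalso; unfold ic at hr2; rw [if_pos (by omega)] at hr2; omega
        · exact h
      have hkic : ic m k = k + m := by unfold ic; rw [if_neg (by omega)]
      by_cases hri : r = 2 * i
      · have h1 := G2_right m a hτ hi1 hi2 (by omega) hik
        have h2 : r = ic m i := by unfold ic; rw [if_pos hi2]; exact hri
        rw [h2]
        have h3 : ori (ch m a τ (2 * i - 1)) (ch m a τ (ic m k)) (ch m a τ (ic m i)) =
          - ori (ch m a τ (2 * i - 1)) (ch m a τ (ic m i)) (ch m a τ (ic m k)) := by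
          simp only [ori, cr, Prod.fst_sub, Prod.snd_sub]; ring
        rw [h3]; linarith
      · have b1 : i < base m r := by unfold base; split_ifs <;> omega
        have b2 : base m r < k := by unfold base; split_ifs <;> omega
        have h1 := G1 (2 * i - 1) (by omega) r (by omega) (ic m k) hicL
          (by rw [bs]; exact b1) (by rw [base_ic]; exact b2)
        have h3 : ori (ch m a τ (2 * i - 1)) (ch m a τ (ic m k)) (ch m a τ r) =
          - ori (ch m a τ (2 * i - 1)) (ch m a τ r) (ch m a τ (ic m k)) := by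
          simp only [ori, cr, Prod.fst_sub, Prod.snd_sub]; ring
        rw [h3]; linarith
    · -- vertices between, to the left
      intro r hr1 hr2
      rw [ht] at hr1
      rw [hs] at hr2
      rw [hs, ht]
      have hki : k < i := by
        rcases hk2 with h | h
        · unfold ic at hr1
          rw [if_pos (by omega)] at hr1
          omega
        · exfalso
          unfold ic at hr1
          rw [if_neg (by omega)] at hr1
          omega
      have hkic : ic m k = 2 * k := by unfold ic; rw [if_pos (by omega)]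
      have b1 : k < base m r := by unfold base; split_ifs <;> omega
      have b2 : base m r < i := by unfold base; split_ifs <;> omega
      have h1 := G1 (ic m k) hicL r (by omega) (2 * i - 1) (by omega)
        (by rw [base_ic]; exact b1) (by rw [bs]; exact b2)
      rw [← ori_cyc, ← ori_cyc] at h1
      rw [ori_cyc]
      have h3 : ori (ch m a τ (ic m k)) (ch m a τ r) (ch m a τ (2 * i - 1)) =
        ori (ch m a τ (2 * i - 1)) (ch m a τ (ic m k)) (ch m a τ r) := by
          simp only [ori, cr, Prod.fst_sub, Prod.snd_sub]; ring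
      have h4 : ori (ch m a τ (ic m k)) (ch m a τ r) (ch m a τ (2 * i - 1)) =
        ori (ch m a τ r) (ch m a τ (2 * i - 1)) (ch m a τ (ic m k)) := by
          simp only [ori, cr, Prod.fst_sub, Prod.snd_sub]; ring
      linarith
    · rw [hw, hu, evt, evs]
      have g1 : 0 ≤ ori (ch m a τ (2 * i - 1)) (ch m a τ (ic m i)) (ch m a τ (ic m k)) := by
        rcases hk2 with h | h
        · rcases h.eq_or_lt with h0 | h0
          · rw [h0]
            have : ori (ch m a τ (2 * i - 1)) (ch m a τ (ic m i)) (ch m a τ (ic m i)) = 0 := by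
              simp only [ori, cr, Prod.fst_sub, Prod.snd_sub]; ring
            rw [this]
          · exact (G2_left m a hτ hi1 hi2 (by omega) h0).le
        · exact (G2_right m a hτ hi1 hi2 (by omega) h).le
      have g2 : 0 ≤ ori (ch m a τ (2 * i - 1)) (ch m a τ (ic m k)) (ch m a τ (ic m (i - 1))) := by
        rcases lt_trichotomy k (i - 1) with h | h | h
        · have h1 := G1 (ic m k) hicL (ic m (i - 1)) hicm (2 * i - 1) (by omega)
            (by rw [base_ic, base_ic]; exact h) (by rw [base_ic, bs]; omega)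
          have h3 : ori (ch m a τ (ic m k)) (ch m a τ (ic m (i - 1))) (ch m a τ (2 * i - 1)) =
            ori (ch m a τ (2 * i - 1)) (ch m a τ (ic m k)) (ch m a τ (ic m (i - 1))) := by
              simp only [ori, cr, Prod.fst_sub, Prod.snd_sub]; ring
          rw [← h3]; exact h1.le
        · rw [← h]
          have : ori (ch m a τ (2 * i - 1)) (ch m a τ (ic m k)) (ch m a τ (ic m k)) = 0 := by
            simp only [ori, cr, Prod.fst_sub, Prod.snd_sub]; ring
          rw [this]
        · rcases Nat.lt_or_ge i k with h5 | h5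
          · have h1 := G1 (ic m (i - 1)) hicm (2 * i - 1) (by omega) (ic m k) hicL
              (by rw [base_ic, bs]; omega) (by rw [base_ic, bs]; omega)
            have h3 : ori (ch m a τ (ic m (i - 1))) (ch m a τ (2 * i - 1)) (ch m a τ (ic m k)) =
              ori (ch m a τ (2 * i - 1)) (ch m a τ (ic m k)) (ch m a τ (ic m (i - 1))) := by
                simp only [ori, cr, Prod.fst_sub, Prod.snd_sub]; ring
            rw [← h3]; exact h1.le
          · have h6 : k = i := by omega
            rw [h6]; exact hwu.le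
      intro hS
      rcases hS with ⟨h1, h2, h3⟩ | ⟨h1, h2 | h2⟩
      · have : cr (ch m a τ (ic m i) - ch m a τ (2 * i - 1))
          (ch m a τ (ic m k) - ch m a τ (2 * i - 1)) =
          ori (ch m a τ (2 * i - 1)) (ch m a τ (ic m i)) (ch m a τ (ic m k)) := rfl
        rw [this] at h2; linarith
      · have : cr (ch m a τ (ic m i) - ch m a τ (2 * i - 1))
          (ch m a τ (ic m k) - ch m a τ (2 * i - 1)) =
          ori (ch m a τ (2 * i - 1)) (ch m a τ (ic m i)) (ch m a τ (ic m k)) := rfl
        rw [this] at h2; linarith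
      · have : cr (ch m a τ (ic m k) - ch m a τ (2 * i - 1))
          (ch m a τ (ic m (i - 1)) - ch m a τ (2 * i - 1)) =
          ori (ch m a τ (2 * i - 1)) (ch m a τ (ic m k)) (ch m a τ (ic m (i - 1))) := rfl
        rw [this] at h2; linarith

end Pool.Agent.K6.H22.VG
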