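import Mathlib
import Pool.Agent.K6.H22.VG.Fam

/-!
# The family in general position
-/

set_option autoImplicit false

namespace Pool.Agent.K6.H22.VG

open Vis124 H612BB Set Filter Topology

theorem ori_of_collinear {A B C : ℝ × ℝ} (h : Collinear ℝ {A, B, C}) : ori A B C = 0 := by
  rw [collinear_iff_of_mem (p₀ := A) (by simp)] at h
  obtain ⟨w, hw⟩ := h
  obtain ⟨r, hr⟩ := hw B (by simp)
  obtain ⟨s, hs⟩ := hw C (by simp)
  rw [hr, hs]
  simp only [ori, cr, vadd_eq_add, Prod.fst_sub, Prod.snd_sub, Prod.fst_add, Prod.snd_add,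
    Prod.smul_fst, Prod.smul_snd, smul_eq_mul]
  ring

theorem ori_swap (A B C : ℝ × ℝ) : ori A B C = - ori B A C := by
  simp only [ori, cr, Prod.fst_sub, Prod.snd_sub]; ring

theorem gp_of_sorted {n : ℕ} {v : Fin n → ℝ × ℝ}
    (h : ∀ i j k : Fin n, i < j → j < k → ori (v i) (v j) (v k) ≠ 0) : GeneralPosition v := by
  intro i j k hij hjk hik hc
  have h0 := ori_of_collinear hc
  have c1 := ori_cyc (v i) (v j) (v k)
  have c2 := ori_cyc (v j) (v k) (v i)
  have s1 := ori_swap (v i) (v j) (v k)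
  have s2 := ori_swap (v j) (v k) (v i)
  have s3 := ori_swap (v k) (v i) (v j)
  rcases lt_or_gt_of_ne hij with a | a <;> rcases lt_or_gt_of_ne hjk with b | b <;>
    rcases lt_or_gt_of_ne hik with c | c
  · exact h _ _ _ a b h0
  · exact absurd (lt_trans a b) (not_lt.mpr c.le)
  · exact h _ _ _ c b (by linarith)
  · exact h _ _ _ c a (by linarith)
  · exact h _ _ _ a c (by linarith)
  · exact h _ _ _ b c (by linarith)
  · exact absurd (lt_trans b a) (not_lt.mpr c.le)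
  · exact h _ _ _ b a (by linarith)

theorem ev_ne {f : ℝ → ℝ} (hf : Continuous f) (h0 : f 0 ≠ 0) :
    ∀ᶠ τ in 𝓝[>] (0 : ℝ), f τ ≠ 0 :=
  mem_nhdsWithin_of_mem_nhds ((hf.tendsto 0).eventually_ne h0)

theorem ev_G2 (m : ℕ) (a : ℕ → ℕ) {i : ℕ} (h1 : 1 ≤ i) (h2 : i ≤ m) {t : ℕ}
    (ht : base m t ≠ i) :
    ∀ᶠ τ in 𝓝[>] (0 : ℝ), ori (ch m a τ (2 * i - 1)) (ch m a τ (ic m i)) (ch m a τ t) ≠ 0 := by
  have hc : Continuous (fun τ : ℝ => (ch m a τ t).2 - (i : ℝ) ^ 2 -
      sl a i * ((ch m a τ t).1 - i)) := by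
    have h1 := continuous_fst.comp (continuous_ch m a t)
    have h2 := continuous_snd.comp (continuous_ch m a t)
    exact (h2.sub continuous_const).sub (continuous_const.mul (h1.sub continuous_const))
  have h0 : (ch m a 0 t).2 - (i : ℝ) ^ 2 - sl a i * ((ch m a 0 t).1 - i) ≠ 0 := by
    rw [ch_zero]
    have e : ((base m t : ℝ)) ^ 2 - (i : ℝ) ^ 2 - sl a i * ((base m t : ℝ) - i) =
      ((base m t : ℝ) - i) * ((base m t : ℝ) - a i + 1 / 2) := by
      unfold sl; ring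
    simp only
    rw [e]
    apply mul_ne_zero
    · have : (base m t : ℝ) ≠ i := by exact_mod_cast ht
      exact sub_ne_zero.mpr this
    · rcases Nat.lt_or_ge (base m t) (a i) with h | h
      · exact (half_neg' h).ne
      · exact (half_pos' h).ne'
  filter_upwards [ev_ne hc h0, self_mem_nhdsWithin] with τ h3 h4
  rw [ori_pit m a τ h1 h2]
  exact mul_ne_zero (ne_of_gt h4) h3

theorem ev_G4 (m : ℕ) (a : ℕ → ℕ) {K : ℝ} (hK : 0 < K) {r s : ℕ} (hrs : base m r < base m s) :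
    ∀ᶠ τ in 𝓝[>] (0 : ℝ), ori (ch m a τ r) (ch m a τ s) (0, K ^ 2) ≠ 0 := by
  refine ev_ne (f := fun τ => ori (ch m a τ r) (ch m a τ s) (0, K ^ 2))
    (continuous_ori (continuous_ch m a r) (continuous_ch m a s) continuous_const) ?_
  simp only [ch_zero]
  have h1 : (base m r : ℝ) < base m s := by exact_mod_cast hrs
  have h2 : (0 : ℝ) ≤ base m r := Nat.cast_nonneg _
  simp only [ori, cr, Prod.fst_sub, Prod.snd_sub]
  have e : ((base m s : ℝ) - base m r) * (K ^ 2 - (base m r : ℝ) ^ 2) -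
      ((base m s : ℝ) ^ 2 - (base m r : ℝ) ^ 2) * ((0 : ℝ) - base m r) =
      ((base m s : ℝ) - base m r) * (K ^ 2 + base m r * base m s) := by ring
  rw [e]
  exact (mul_pos (by linarith) (by positivity)).ne'

theorem base_mono_lt {m s t : ℕ} (h : s < t) : base m s ≤ base m t := by
  unfold base; split_ifs <;> omega

theorem base_eq_pit {m s t : ℕ} (h : s < t) (hb : base m s = base m t) :
    1 ≤ base m s ∧ base m s ≤ m ∧ s = 2 * base m s - 1 ∧ t = ic m (base m s) := by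
  unfold ic
  unfold base at *
  split_ifs at * <;> omega

/-- all good properties hold for small `τ` -/
theorem exists_tau (m M : ℕ) (hM : 1 ≤ M) (a : ℕ → ℕ) :
    ∃ τ : ℝ, 0 < τ ∧ τ < 1 ∧
      (∀ r ≤ 2 * m + M, ∀ s ≤ 2 * m + M, ∀ t ≤ 2 * m + M, base m r < base m s →
        base m s < base m t → 0 < ori (ch m a τ r) (ch m a τ s) (ch m a τ t)) ∧
      (∀ i ≤ m, 1 ≤ i → ∀ t ≤ 2 * m + M, base m t ≠ i →
        ori (ch m a τ (2 * i - 1)) (ch m a τ (ic m i)) (ch m a τ t) ≠ 0) ∧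
      (∀ r ≤ 2 * m + M, ∀ s ≤ 2 * m + M, base m r < base m s →
        ori (ch m a τ r) (ch m a τ s) (0, (((m + M : ℕ) : ℝ)) ^ 2) ≠ 0) := by
  have key : ∀ (n : ℕ) (q : ℕ → ℝ → Prop), (∀ i ≤ n, ∀ᶠ τ in 𝓝[>] (0 : ℝ), q i τ) →
      ∀ᶠ τ in 𝓝[>] (0 : ℝ), ∀ i ≤ n, q i τ := by
    intro n q hq
    have := (Filter.eventually_all_finset (Finset.range (n + 1)) (l := 𝓝[>] (0 : ℝ))
      (p := q)).mpr (fun i hi => hq i (by simpa [Nat.lt_succ_iff] using hi))
    filter_upwards [this] with τ hτ i hi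
    exact hτ i (by simpa [Nat.lt_succ_iff] using hi)
  have e1 : ∀ᶠ τ in 𝓝[>] (0 : ℝ), ∀ r ≤ 2 * m + M, ∀ s ≤ 2 * m + M, ∀ t ≤ 2 * m + M,
      base m r < base m s → base m s < base m t →
      0 < ori (ch m a τ r) (ch m a τ s) (ch m a τ t) := by
    apply key
    intro r _
    apply key
    intro s _
    apply key
    intro t _
    by_cases h1 : base m r < base m s
    · by_cases h2 : base m s < base m t
      · filter_upwards [ev_G1 m a h1 h2] with τ hτ _ _ using hτ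
      · exact Eventually.of_forall (fun τ _ h => absurd h h2)
    · exact Eventually.of_forall (fun τ h => absurd h h1)
  have e2 : ∀ᶠ τ in 𝓝[>] (0 : ℝ), ∀ i ≤ m, 1 ≤ i → ∀ t ≤ 2 * m + M, base m t ≠ i →
      ori (ch m a τ (2 * i - 1)) (ch m a τ (ic m i)) (ch m a τ t) ≠ 0 := by
    apply key
    intro i hi
    by_cases h1 : 1 ≤ i
    · have : ∀ᶠ τ in 𝓝[>] (0 : ℝ), ∀ t ≤ 2 * m + M, base m t ≠ i →
          ori (ch m a τ (2 * i - 1)) (ch m a τ (ic m i)) (ch m a τ t) ≠ 0 := by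
        apply key
        intro t _
        by_cases h2 : base m t ≠ i
        · filter_upwards [ev_G2 m a h1 hi h2] with τ hτ _ using hτ
        · exact Eventually.of_forall (fun τ h => absurd h h2)
      filter_upwards [this] with τ hτ _ using hτ
    · exact Eventually.of_forall (fun τ h => absurd h h1)
  have e3 : ∀ᶠ τ in 𝓝[>] (0 : ℝ), ∀ r ≤ 2 * m + M, ∀ s ≤ 2 * m + M, base m r < base m s →
      ori (ch m a τ r) (ch m a τ s) (0, (((m + M : ℕ) : ℝ)) ^ 2) ≠ 0 := by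
    apply key
    intro r _
    apply key
    intro s _
    by_cases h1 : base m r < base m s
    · have hK : (0 : ℝ) < ((m + M : ℕ) : ℝ) := by exact_mod_cast (show 0 < m + M by omega)
      filter_upwards [ev_G4 m a hK h1] with τ hτ _ using hτ
    · exact Eventually.of_forall (fun τ h => absurd h h1)
  have e4 : ∀ᶠ τ in 𝓝[>] (0 : ℝ), τ < 1 := by
    have : Iio (1 : ℝ) ∈ 𝓝 (0 : ℝ) := Iio_mem_nhds (by norm_num)
    exact mem_nhdsWithin_of_mem_nhds this
  have e5 : ∀ᶠ τ in 𝓝[>] (0 : ℝ), 0 < τ := self_mem_nhdsWithin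
  obtain ⟨τ, h1, h2, h3, h4, h5⟩ := (e1.and (e2.and (e3.and (e4.and e5)))).exists
  exact ⟨τ, h5, h4, h1, h2, h3⟩

/-- **The family.** -/
theorem family (m M : ℕ) (hM : 1 ≤ M) (a : ℕ → ℕ) (ha : ∀ i, 1 ≤ i → i ≤ m → m < a i) :
    ∃ (v : Fin (2 * m + M + 2) → ℝ × ℝ) (P : Set (ℝ × ℝ)), IsSimplePolygon v P ∧
      GeneralPosition v ∧ ∀ (i k : ℕ) (s t : Fin (2 * m + M + 2)), 1 ≤ i → i ≤ m → k ≤ m + M →
        (s : ℕ) = 2 * i - 1 → (t : ℕ) = ic m k →
        ((visGraph v P).Adj s t ↔ (k ≤ i ∨ a i ≤ k)) := by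
  obtain ⟨τ, hτ, hτ1, G1, G2, G4⟩ := exists_tau m M hM a
  have hMt := mountain (m := m) hM a hτ hτ1
  obtain ⟨P, hP⟩ := mtn_region hMt
  refine ⟨_, P, hP, ?_, ?_⟩
  · apply gp_of_sorted
    intro i j k hij hjk
    have hij' : (i : ℕ) < j := hij
    have hjk' : (j : ℕ) < k := hjk
    have hk := k.2
    have hiL : (i : ℕ) ≤ 2 * m + M := by omega
    have hjL : (j : ℕ) ≤ 2 * m + M := by omega
    rw [mv_le hiL, mv_le hjL]
    have b1 := base_mono_lt (m := m) hij'
    by_cases hkL : (k : ℕ) ≤ 2 * m + M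
    · rw [mv_le hkL]
      have b2 := base_mono_lt (m := m) hjk'
      rcases b1.eq_or_lt with c1 | c1
      · obtain ⟨q1, q2, q3, q4⟩ := base_eq_pit hij' c1
        have hne : base m k ≠ base m i := by
          intro h
          have := base_eq_pit hjk' (by rw [← c1, h])
          omega
        have := G2 _ q2 q1 k hkL hne
        rw [← q3, ← q4] at this
        exact this
      · rcases b2.eq_or_lt with c2 | c2
        · obtain ⟨q1, q2, q3, q4⟩ := base_eq_pit hjk' c2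
          have := G2 _ q2 q1 i hiL (by omega)
          rw [← q3, ← q4] at this
          rw [ori_cyc]
          exact this
        · exact (G1 i hiL j hjL k hkL c1 c2).ne'
    · rw [mv_last (by omega)]
      rcases b1.eq_or_lt with c1 | c1
      · obtain ⟨q1, q2, q3, q4⟩ := base_eq_pit hij' c1
        have h1 := ori_pit m a τ q1 q2 (0, (((m + M : ℕ) : ℝ)) ^ 2)
        rw [← q3, ← q4] at h1
        rw [h1]
        apply mul_ne_zero hτ.ne'
        have h2 : ((base m i : ℕ) : ℝ) < ((m + M : ℕ) : ℝ) := by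
          exact_mod_cast (show base m i < m + M by omega)
        have h3 : (0 : ℝ) ≤ ((base m i : ℕ) : ℝ) := Nat.cast_nonneg _
        have h4 : (1 : ℝ) ≤ ((base m i : ℕ) : ℝ) := by exact_mod_cast q1
        have h5 : 0 ≤ sl a (base m i) := by
          unfold sl
          have : (0 : ℝ) ≤ a (base m i) := Nat.cast_nonneg _
          linarith
        have h6 : 0 ≤ sl a (base m i) * ((base m i : ℕ) : ℝ) := mul_nonneg h5 h3
        have h7 : ((base m i : ℕ) : ℝ) ^ 2 < (((m + M : ℕ) : ℝ)) ^ 2 := by nlinarith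
        simp only
        have h8 : 0 < (((m + M : ℕ) : ℝ)) ^ 2 - ((base m i : ℕ) : ℝ) ^ 2 -
          sl a (base m i) * (0 - ((base m i : ℕ) : ℝ)) := by linarith
        exact h8.ne'
      · exact G4 i hiL j hjL c1
  · intro i k s t hi1 hi2 hk hs ht
    exact vis_facts rfl a ha hτ hMt G1 hP hi1 hi2 hk hs ht

end Pool.Agent.K6.H22.VG
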