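import Mathlib
import Pool.Agent.K6.H22.VG.GP

/-!
# The family contains many non-isomorphic visibility graphs
-/

set_option autoImplicit false

namespace Pool.Agent.K6.H22.VG

open Vis124

/-- the number of neighbours with a given label -/
noncomputable def cnt {n c : ℕ} (G : SimpleGraph (Fin n)) (ℓ : Fin n → Fin c) (x : Fin n)
    (j : Fin c) : ℕ := by
  classical exact (Finset.univ.filter fun y => G.Adj x y ∧ ℓ y = j).card

theorem cnt_iso {n c : ℕ} {G G' : SimpleGraph (Fin n)} (ℓ : Fin n → Fin c) (φ : G ≃g G')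
    (hφ : ∀ x, ℓ (φ x) = ℓ x) (x : Fin n) (j : Fin c) : cnt G ℓ x j = cnt G' ℓ (φ x) j := by
  classical
  unfold cnt
  apply Finset.card_equiv φ.toEquiv
  intro y
  simp only [Finset.mem_filter, Finset.mem_univ, true_and]
  constructor
  · rintro ⟨h1, h2⟩
    exact ⟨φ.map_adj_iff.mpr h1, by rw [← h2]; exact hφ y⟩
  · rintro ⟨h1, h2⟩
    exact ⟨φ.map_adj_iff.mp h1, by rw [← h2]; exact (hφ y).symm⟩

/-- the counting principle -/
theorem counting {S : Type} [Fintype S] {n c : ℕ} (G : S → SimpleGraph (Fin n))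
    (ℓ : Fin n → Fin c)
    (h : ∀ f f' : S, ∀ φ : G f ≃g G f', (∀ x, ℓ (φ x) = ℓ x) → f = f')
    (C : Set (Quotient (isoSetoid n))) (hC : ∀ f, Quotient.mk (isoSetoid n) (G f) ∈ C) :
    Fintype.card S ≤ C.ncard * c ^ n := by
  classical
  have h1 : ∀ f : S, ∃ e : Fin n ≃ Fin n, ∀ x y, (G f).Adj (e x) (e y) ↔
      (Quotient.out (Quotient.mk (isoSetoid n) (G f))).Adj x y := by
    intro f
    obtain ⟨e⟩ : Nonempty (Quotient.out (Quotient.mk (isoSetoid n) (G f)) ≃g G f) :=
      Quotient.exact (Quotient.out_eq (Quotient.mk (isoSetoid n) (G f)))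
    exact ⟨e.toEquiv, fun x y => e.map_adj_iff⟩
  choose e he using h1
  have hinj : Function.Injective
      (fun f : S => ((⟨Quotient.mk (isoSetoid n) (G f), hC f⟩ : C), fun x => ℓ (e f x))) := by
    intro f f' hff
    simp only [Prod.mk.injEq, Subtype.mk.injEq] at hff
    obtain ⟨hq, hl⟩ := hff
    let φ : G f ≃g G f' :=
      { toEquiv := (e f).symm.trans (e f')
        map_rel_iff' := by
          intro x y
          have h2 := he f ((e f).symm x) ((e f).symm y)
          have h3 := he f' ((e f).symm x) ((e f).symm y)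
          rw [← hq, ← h2] at h3
          simpa using h3 }
    apply h f f' φ
    intro x
    have h4 := congrFun hl ((e f).symm x)
    simp only [Equiv.apply_symm_apply] at h4
    exact h4.symm
  have hfin : Finite (Quotient (isoSetoid n)) := by infer_instance
  have h2 := Nat.card_le_card_of_injective _ hinj
  rw [Nat.card_eq_fintype_card, Nat.card_prod, Nat.card_coe_set_eq] at h2
  have h3 : Nat.card (Fin n → Fin c) = c ^ n := by simp
  rw [h3] at h2
  exact h2

theorem card_fin_filter {n : ℕ} (p : Fin n → Prop) [DecidablePred p] (S : Finset ℕ)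
    (hS : ∀ y : ℕ, y ∈ S ↔ ∃ h : y < n, p ⟨y, h⟩) :
    (Finset.univ.filter p).card = S.card := by
  rw [← Finset.card_map Fin.valEmbedding]
  congr 1
  ext y
  simp only [Finset.mem_map, Finset.mem_filter, Finset.mem_univ, true_and, Fin.valEmbedding_apply]
  rw [hS]
  constructor
  · rintro ⟨a, ha, rfl⟩; exact ⟨a.2, ha⟩
  · rintro ⟨h, hp⟩; exact ⟨⟨y, h⟩, hp, rfl⟩

/-- the labels -/
def lab (m M : ℕ) (t : Fin (2 * m + M + 2)) : Fin 4 :=
  if (t : ℕ) = 0 ∨ (t : ℕ) = 2 * m + M + 1 then 0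
  else if (t : ℕ) ≤ 2 * m then (if (t : ℕ) % 2 = 1 then 1 else 2) else 3

theorem lab_eq_one {m M : ℕ} {t : Fin (2 * m + M + 2)} :
    lab m M t = 1 ↔ ∃ i, 1 ≤ i ∧ i ≤ m ∧ (t : ℕ) = 2 * i - 1 := by
  have ht := t.2
  unfold lab
  constructor
  · intro h
    split_ifs at h with h1 h2 h3
    · exact absurd h (by decide)
    · exact ⟨((t : ℕ) + 1) / 2, by omega, by omega, by omega⟩
    · exact absurd h (by decide)
    · exact absurd h (by decide)
  · rintro ⟨i, h1, h2, h3⟩
    rw [if_neg (by omega), if_pos (by omega), if_pos (by omega)]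

theorem lab_eq_two {m M : ℕ} {t : Fin (2 * m + M + 2)} :
    lab m M t = 2 ↔ ∃ k, 1 ≤ k ∧ k ≤ m ∧ (t : ℕ) = ic m k := by
  have ht := t.2
  unfold lab
  constructor
  · intro h
    split_ifs at h with h1 h2 h3
    · exact absurd h (by decide)
    · exact absurd h (by decide)
    · refine ⟨(t : ℕ) / 2, by omega, by omega, ?_⟩
      unfold ic; rw [if_pos (by omega)]; omega
    · exact absurd h (by decide)
  · rintro ⟨k, h1, h2, h3⟩
    unfold ic at h3
    rw [if_pos h2] at h3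
    rw [if_neg (by omega), if_pos (by omega), if_neg (by omega)]

theorem lab_eq_three {m M : ℕ} {t : Fin (2 * m + M + 2)} :
    lab m M t = 3 ↔ ∃ k, m < k ∧ k ≤ m + M ∧ (t : ℕ) = ic m k := by
  have ht := t.2
  unfold lab
  constructor
  · intro h
    split_ifs at h with h1 h2 h3
    · exact absurd h (by decide)
    · exact absurd h (by decide)
    · exact absurd h (by decide)
    · refine ⟨(t : ℕ) - m, by omega, by omega, ?_⟩
      unfold ic; rw [if_neg (by omega)]; omega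
  · rintro ⟨k, h1, h2, h3⟩
    unfold ic at h3
    rw [if_neg (by omega)] at h3
    rw [if_neg (by omega), if_neg (by omega)]

/-- the thresholds -/
def thr {m M : ℕ} (f : Fin m → Fin M) (i : ℕ) : ℕ :=
  if h : 1 ≤ i ∧ i ≤ m then m + 1 + f ⟨i - 1, by omega⟩ else m + 1

theorem thr_gt {m M : ℕ} (f : Fin m → Fin M) (i : ℕ) : m < thr f i := by
  unfold thr; split_ifs <;> omega

theorem thr_le {m M : ℕ} (f : Fin m → Fin M) {i : ℕ} (h : 1 ≤ i ∧ i ≤ m) :
    thr f i ≤ m + M := by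
  unfold thr; rw [dif_pos h]; have := (f ⟨i - 1, by omega⟩).2; omega

/-- the facts that are used about the graph -/
def Good {m M : ℕ} (f : Fin m → Fin M) (G : SimpleGraph (Fin (2 * m + M + 2))) : Prop :=
  ∀ (i k : ℕ) (s t : Fin (2 * m + M + 2)), 1 ≤ i → i ≤ m → k ≤ m + M →
    (s : ℕ) = 2 * i - 1 → (t : ℕ) = ic m k → (G.Adj s t ↔ (k ≤ i ∨ thr f i ≤ k))

theorem cnt_two {m M : ℕ} {f : Fin m → Fin M} {G : SimpleGraph (Fin (2 * m + M + 2))}
    (hG : Good f G) {i : ℕ} (h1 : 1 ≤ i) (h2 : i ≤ m) {s : Fin (2 * m + M + 2)}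
    (hs : (s : ℕ) = 2 * i - 1) : cnt G (lab m M) s 2 = i := by
  classical
  unfold cnt
  rw [card_fin_filter _ ((Finset.Icc 1 i).image fun k => 2 * k)]
  · rw [Finset.card_image_of_injective _ (fun a b h => by
      have h' : 2 * a = 2 * b := h
      omega)]
    simp
  · intro y
    simp only [Finset.mem_image, Finset.mem_Icc]
    constructor
    · rintro ⟨k, ⟨hk1, hk2⟩, rfl⟩
      refine ⟨by omega, ?_, ?_⟩
      · have e : ic m k = 2 * k := by unfold ic; rw [if_pos (by omega)]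
        exact (hG i k s ⟨2 * k, by omega⟩ h1 h2 (by omega) hs (by simp [e])).mpr (Or.inl hk2)
      · rw [lab_eq_two]
        exact ⟨k, hk1, by omega, by unfold ic; rw [if_pos (by omega)]⟩
    · rintro ⟨hy, hadj, hlab⟩
      rw [lab_eq_two] at hlab
      obtain ⟨k, hk1, hk2, hk3⟩ := hlab
      have h3 := (hG i k s ⟨y, hy⟩ h1 h2 (by omega) hs hk3).mp hadj
      have h4 := thr_gt f i
      have e : ic m k = 2 * k := by unfold ic; rw [if_pos (by omega)]
      simp only at hk3
      exact ⟨k, ⟨hk1, by omega⟩, by omega⟩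

theorem cnt_three {m M : ℕ} {f : Fin m → Fin M} {G : SimpleGraph (Fin (2 * m + M + 2))}
    (hG : Good f G) {i : ℕ} (h1 : 1 ≤ i) (h2 : i ≤ m) {s : Fin (2 * m + M + 2)}
    (hs : (s : ℕ) = 2 * i - 1) : cnt G (lab m M) s 3 = m + M + 1 - thr f i := by
  classical
  have ht1 := thr_gt f i
  have ht2 := thr_le f ⟨h1, h2⟩
  unfold cnt
  rw [card_fin_filter _ (Finset.Icc (thr f i + m) (2 * m + M))]
  · rw [Nat.card_Icc]; omega
  · intro y
    simp only [Finset.mem_Icc]
    constructor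
    · rintro ⟨hy1, hy2⟩
      have e : ic m (y - m) = y := by unfold ic; rw [if_neg (by omega)]; omega
      refine ⟨by omega, ?_, ?_⟩
      · exact (hG i (y - m) s ⟨y, by omega⟩ h1 h2 (by omega) hs (by simp [e])).mpr
          (Or.inr (by omega))
      · rw [lab_eq_three]
        exact ⟨y - m, by omega, by omega, by simp [e]⟩
    · rintro ⟨hy, hadj, hlab⟩
      rw [lab_eq_three] at hlab
      obtain ⟨k, hk1, hk2, hk3⟩ := hlab
      have h3 := (hG i k s ⟨y, hy⟩ h1 h2 (by omega) hs hk3).mp hadj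
      have e : ic m k = k + m := by unfold ic; rw [if_neg (by omega)]
      simp only at hk3
      omega

theorem decode {m M : ℕ} {f f' : Fin m → Fin M} {G G' : SimpleGraph (Fin (2 * m + M + 2))}
    (hG : Good f G) (hG' : Good f' G') (φ : G ≃g G') (hφ : ∀ x, lab m M (φ x) = lab m M x) :
    f = f' := by
  funext j
  have hj := j.2
  obtain ⟨i, hi⟩ : ∃ i, i = (j : ℕ) + 1 := ⟨_, rfl⟩
  have h1 : 1 ≤ i := by omega
  have h2 : i ≤ m := by omega
  obtain ⟨s, hs⟩ : ∃ s : Fin (2 * m + M + 2), (s : ℕ) = 2 * i - 1 := ⟨⟨2 * i - 1, by omega⟩, rfl⟩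
  have hl : lab m M (φ s) = 1 := by rw [hφ, lab_eq_one]; exact ⟨i, h1, h2, hs⟩
  rw [lab_eq_one] at hl
  obtain ⟨i', g1, g2, g3⟩ := hl
  have c2 := cnt_iso (lab m M) φ hφ s 2
  rw [cnt_two hG h1 h2 hs, cnt_two hG' g1 g2 g3] at c2
  subst c2
  have c3 := cnt_iso (lab m M) φ hφ s 3
  rw [cnt_three hG h1 h2 hs, cnt_three hG' g1 g2 g3] at c3
  have t1 := thr_le f ⟨h1, h2⟩
  have t2 := thr_le f' ⟨h1, h2⟩
  have t3 : thr f i = thr f' i := by omega
  unfold thr at t3
  rw [dif_pos ⟨h1, h2⟩, dif_pos ⟨h1, h2⟩] at t3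
  have e : (⟨i - 1, by omega⟩ : Fin m) = j := by apply Fin.ext; simp only; omega
  rw [e] at t3
  apply Fin.ext
  omega

/-- **The lower bound.** -/
theorem lower (m M : ℕ) (hM : 1 ≤ M) :
    M ^ m ≤ NGP (2 * m + M + 2) * 4 ^ (2 * m + M + 2) := by
  classical
  have h1 : ∀ f : Fin m → Fin M, ∃ (v : Fin (2 * m + M + 2) → ℝ × ℝ) (P : Set (ℝ × ℝ)),
      IsSimplePolygon v P ∧ GeneralPosition v ∧ Good f (visGraph v P) := by
    intro f
    obtain ⟨v, P, h1, h2, h3⟩ := family m M hM (thr f) (fun i _ _ => thr_gt f i)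
    exact ⟨v, P, h1, h2, h3⟩
  choose v P hP hGP hgood using h1
  have h2 := counting (fun f => visGraph (v f) (P f)) (lab m M)
    (fun f f' φ hφ => decode (hgood f) (hgood f') φ hφ) (visClassesGP (2 * m + M + 2))
    (fun f => ⟨v f, P f, hP f, hGP f, rfl⟩)
  rw [Fintype.card_fun, Fintype.card_fin, Fintype.card_fin] at h2
  exact h2

theorem NGP_le_N (n : ℕ) : NGP n ≤ N n := by
  have hfin : Finite (Quotient (isoSetoid n)) := by infer_instance
  apply Set.ncard_le_ncard _ (Set.toFinite _)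
  rintro q ⟨v, P, h1, h2, h3⟩
  exact ⟨v, P, h1, h3⟩

end Pool.Agent.K6.H22.VG
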