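import Mathlib
import Pool.Agent.H124R2.Vis.Exit
import Pool.Agent.Helper448.Warren

/-!
# The upper bound: the visibility graph is determined by the signs of few polynomials
-/

set_option autoImplicit false

namespace Pool.Agent.K6.H22.VG

open Vis124

/-- same signs -/
theorem sign_iff_pos {x y : ℝ} (h : SignType.sign x = SignType.sign y) : 0 < x ↔ 0 < y := by
  rw [← sign_eq_one_iff, ← sign_eq_one_iff, h]

theorem sign_iff_neg {x y : ℝ} (h : SignType.sign x = SignType.sign y) : x < 0 ↔ y < 0 := by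
  rw [← sign_eq_neg_one_iff, ← sign_eq_neg_one_iff, h]

theorem sign_iff_zero {x y : ℝ} (h : SignType.sign x = SignType.sign y) : x = 0 ↔ y = 0 := by
  rw [← sign_eq_zero_iff (a := x), h, sign_eq_zero_iff]

theorem sign_smul {x y σ : ℝ} (h : SignType.sign x = SignType.sign y) :
    SignType.sign (σ * x) = SignType.sign (σ * y) := by
  rw [sign_mul, sign_mul, h]

/-- same orientations and same signs of scalar products -/
def Same {n : ℕ} (v v' : Fin n → ℝ × ℝ) : Prop :=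
  (∀ i j k, SignType.sign (ori (v i) (v j) (v k)) = SignType.sign (ori (v' i) (v' j) (v' k))) ∧
  (∀ i j k, SignType.sign (dotp (v i) (v j) (v k)) = SignType.sign (dotp (v' i) (v' j) (v' k)))

theorem Same.symm {n : ℕ} {v v' : Fin n → ℝ × ℝ} (h : Same v v') : Same v' v :=
  ⟨fun i j k => (h.1 i j k).symm, fun i j k => (h.2 i j k).symm⟩

theorem sec_same {n : ℕ} {v v' : Fin n → ℝ × ℝ} (h : Same v v') (σ : ℝ) {j k : Fin n}
    (hs : v j - v k ∈ Sec σ (wd v k) (ud v k)) : v' j - v' k ∈ Sec σ (wd v' k) (ud v' k) := by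
  have e1 := sign_smul (σ := σ) (h.1 k (sc k) (pd k))
  have e2 := sign_smul (σ := σ) (h.1 k (sc k) j)
  have e3 := sign_smul (σ := σ) (h.1 k j (pd k))
  rcases hs with ⟨a, b, c⟩ | ⟨a, b | b⟩
  · exact Or.inl ⟨(sign_iff_pos e1).mp a, (sign_iff_pos e2).mp b, (sign_iff_pos e3).mp c⟩
  · refine Or.inr ⟨?_, Or.inl ((sign_iff_pos e2).mp b)⟩
    exact not_lt.mp (fun hc => absurd ((sign_iff_pos e1).mpr hc) (not_lt.mpr a))
  · refine Or.inr ⟨?_, Or.inr ((sign_iff_pos e3).mp b)⟩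
    exact not_lt.mp (fun hc => absurd ((sign_iff_pos e1).mpr hc) (not_lt.mpr a))

theorem vexit_same {n : ℕ} {v v' : Fin n → ℝ × ℝ} (h : Same v v') {σ : ℝ} {i j k : Fin n}
    (he : VExit σ v i j k) : VExit σ v' i j k := by
  obtain ⟨h1, h2, h3, h4⟩ := he
  refine ⟨h1, (sign_iff_zero (h.1 i j k)).mp h2, ?_, sec_same h _ h4⟩
  exact not_lt.mp (fun hc => absurd ((sign_iff_pos (h.2 k i j)).mpr hc) (not_lt.mpr h3))

theorem eexit_same {n : ℕ} {v v' : Fin n → ℝ × ℝ} (h : Same v v') {σ : ℝ} {i j l : Fin n}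
    (he : EExit σ v i j l) : EExit σ v' i j l := by
  obtain ⟨h1, h2, h3⟩ := he
  refine ⟨(sign_iff_pos (sign_smul (h.1 l (sc l) i))).mp h1,
    (sign_iff_neg (sign_smul (h.1 l (sc l) j))).mp h2, ?_⟩
  have e : SignType.sign (ori (v i) (v j) (v l) * ori (v i) (v j) (v (sc l))) =
      SignType.sign (ori (v' i) (v' j) (v' l) * ori (v' i) (v' j) (v' (sc l))) := by
    rw [sign_mul, sign_mul, h.1 i j l, h.1 i j (sc l)]
  exact (sign_iff_neg e).mp h3

/-- the orientation of a simple polygon -/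
theorem exists_sigma {n : ℕ} {v : Fin n → ℝ × ℝ} {P : Set (ℝ × ℝ)} (h : IsSimplePolygon v P) :
    ∃ b : Bool, (∀ k, Ev v (interior P) (if b then 1 else -1) k) ∧
      (∀ k, Ev v Pᶜ (-(if b then 1 else -1)) k) := by
  obtain ⟨σ, hσ, h1, h2⟩ := oriented h
  rcases hσ with rfl | rfl
  · exact ⟨true, by simpa using h1, by simpa using h2⟩
  · exact ⟨false, by simpa using h1, by simpa using h2⟩

theorem vis_same {n : ℕ} {v v' : Fin n → ℝ × ℝ} {P P' : Set (ℝ × ℝ)}
    (hP : IsSimplePolygon v P) (hP' : IsSimplePolygon v' P') {σ : ℝ} (hσ : σ = 1 ∨ σ = -1)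
    (h1 : ∀ k, Ev v Pᶜ (-σ) k)
    (h1' : ∀ k, Ev v' (interior P') σ k) (h2' : ∀ k, Ev v' P'ᶜ (-σ) k)
    (h : Same v v') {i j : Fin n} (hij : i ≠ j) (hs : segment ℝ (v i) (v j) ⊆ P) :
    segment ℝ (v' i) (v' j) ⊆ P' := by
  by_contra hc
  refine not_visible_of_exit hP hσ h1 hij ?_ hs
  rcases exit_of_not_visible hP' hσ h1' h2' hij hc with ⟨k, hk⟩ | ⟨l, hl⟩
  · exact Or.inl ⟨k, vexit_same h.symm hk⟩
  · exact Or.inr ⟨l, eexit_same h.symm hl⟩

theorem visGraph_same {n : ℕ} {v v' : Fin n → ℝ × ℝ} {P P' : Set (ℝ × ℝ)}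
    (hP : IsSimplePolygon v P) (hP' : IsSimplePolygon v' P') {σ : ℝ} (hσ : σ = 1 ∨ σ = -1)
    (h1 : ∀ k, Ev v (interior P) σ k) (h2 : ∀ k, Ev v Pᶜ (-σ) k)
    (h1' : ∀ k, Ev v' (interior P') σ k) (h2' : ∀ k, Ev v' P'ᶜ (-σ) k)
    (h : Same v v') : visGraph v P = visGraph v' P' := by
  ext i j
  constructor
  · rintro ⟨a, b⟩
    exact ⟨a, vis_same hP hP' hσ h2 h1' h2' h a b⟩
  · rintro ⟨a, b⟩
    exact ⟨a, vis_same hP' hP hσ h2' h1 h2 h.symm a b⟩

/-! ### the polynomials -/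

open MvPolynomial

/-- difference of two coordinates -/
noncomputable def dX {n : ℕ} (c : Fin 2) (i j : Fin n) : MvPolynomial (Fin n × Fin 2) ℝ :=
  X (j, c) - X (i, c)

theorem deg_dX {n : ℕ} (c : Fin 2) (i j : Fin n) : (dX c i j).totalDegree ≤ 1 := by
  unfold dX
  refine (totalDegree_sub _ _).trans ?_
  rw [totalDegree_X, totalDegree_X]
  simp

/-- the polynomials -/
noncomputable def pl {n : ℕ} (t : (Fin n × Fin n × Fin n) × Fin 2) :
    MvPolynomial (Fin n × Fin 2) ℝ :=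
  if t.2 = 0 then
    dX 0 t.1.1 t.1.2.1 * dX 1 t.1.1 t.1.2.2 - dX 1 t.1.1 t.1.2.1 * dX 0 t.1.1 t.1.2.2
  else
    dX 0 t.1.1 t.1.2.1 * dX 0 t.1.1 t.1.2.2 + dX 1 t.1.1 t.1.2.1 * dX 1 t.1.1 t.1.2.2

theorem deg_pl {n : ℕ} (t : (Fin n × Fin n × Fin n) × Fin 2) : (pl t).totalDegree ≤ 2 := by
  have hm : ∀ (c c' : Fin 2) (i j k l : Fin n),
      (dX c i j * dX c' k l).totalDegree ≤ 2 := by
    intro c c' i j k l
    refine (totalDegree_mul _ _).trans ?_
    have h1 := deg_dX c i j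
    have h2 := deg_dX c' k l
    omega
  unfold pl
  split_ifs
  · exact (totalDegree_sub _ _).trans (max_le (hm _ _ _ _ _ _) (hm _ _ _ _ _ _))
  · exact (totalDegree_add _ _).trans (max_le (hm _ _ _ _ _ _) (hm _ _ _ _ _ _))

/-- the coordinates -/
def co {n : ℕ} (v : Fin n → ℝ × ℝ) : Fin n × Fin 2 → ℝ :=
  fun t => if t.2 = 0 then (v t.1).1 else (v t.1).2

theorem eval_pl_zero {n : ℕ} (v : Fin n → ℝ × ℝ) (i j k : Fin n) :
    eval (co v) (pl ((i, j, k), 0)) = ori (v i) (v j) (v k) := by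
  simp only [pl, if_pos, dX, map_sub, map_mul, eval_X, co, ori, cr, Prod.fst_sub, Prod.snd_sub,
    Fin.isValue, one_ne_zero, if_false]

theorem eval_pl_one {n : ℕ} (v : Fin n → ℝ × ℝ) (i j k : Fin n) :
    eval (co v) (pl ((i, j, k), 1)) = dotp (v i) (v j) (v k) := by
  simp only [pl, dX, map_sub, map_mul, map_add, eval_X, co, dotp,
    Fin.isValue, one_ne_zero, if_false, if_true]

/-- the sign pattern -/
noncomputable def pat {n : ℕ} (x : Fin n × Fin 2 → ℝ) :
    (Fin n × Fin n × Fin n) × Fin 2 → SignType := fun t => SignType.sign (eval x (pl t))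

theorem same_of_pat {n : ℕ} {v v' : Fin n → ℝ × ℝ} (h : pat (co v) = pat (co v')) :
    Same v v' := by
  constructor
  · intro i j k
    have := congrFun h ((i, j, k), 0)
    unfold pat at this
    rwa [eval_pl_zero, eval_pl_zero] at this
  · intro i j k
    have := congrFun h ((i, j, k), 1)
    unfold pat at this
    rwa [eval_pl_one, eval_pl_one] at this

/-- **The upper bound.** -/
theorem upper (n : ℕ) : N n ≤ 2 * (16 * n ^ 3 + 2) ^ (2 * n) := by
  classical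
  have hW := Pool.Agent.Helper448.Warren.ncard_sign_patterns_le
    (fun t : (Fin n × Fin n × Fin n) × Fin 2 => pl t) 2 deg_pl
  have hc1 : Fintype.card ((Fin n × Fin n × Fin n) × Fin 2) = 2 * n ^ 3 := by
    simp; ring
  have hc2 : Fintype.card (Fin n × Fin 2) = 2 * n := by
    simp; ring
  rw [hc1, hc2] at hW
  have e : 4 * (2 * n ^ 3) * 2 + 2 = 16 * n ^ 3 + 2 := by ring
  rw [e] at hW
  set R : Set ((Fin n × Fin n × Fin n) × Fin 2 → SignType) := Set.range pat with hR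
  have hW' : R.ncard ≤ (16 * n ^ 3 + 2) ^ (2 * n) := hW
  have h1 : ∀ q : visClasses n, ∃ (v : Fin n → ℝ × ℝ) (P : Set (ℝ × ℝ)) (b : Bool),
      IsSimplePolygon v P ∧ (∀ k, Ev v (interior P) (if b then 1 else -1) k) ∧
      (∀ k, Ev v Pᶜ (-(if b then 1 else -1)) k) ∧
      (q : Quotient (isoSetoid n)) = Quotient.mk (isoSetoid n) (visGraph v P) := by
    rintro ⟨q, v, P, h1, h2⟩
    obtain ⟨b, hb1, hb2⟩ := exists_sigma h1
    exact ⟨v, P, b, h1, hb1, hb2, h2⟩
  choose v P b hP hb1 hb2 hq using h1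
  have hinj : Function.Injective (fun q : visClasses n => (b q, (⟨pat (co (v q)),
      ⟨co (v q), rfl⟩⟩ : R))) := by
    intro q q' hqq
    simp only [Prod.mk.injEq, Subtype.mk.injEq] at hqq
    obtain ⟨e1, e2⟩ := hqq
    apply Subtype.ext
    rw [hq q, hq q']
    have hσ : (if b q then (1 : ℝ) else -1) = 1 ∨ (if b q then (1 : ℝ) else -1) = -1 := by
      cases b q <;> simp
    have g1 := hb1 q'
    have g2 := hb2 q'
    rw [← e1] at g1 g2
    rw [visGraph_same (hP q) (hP q') hσ (hb1 q) (hb2 q) g1 g2 (same_of_pat e2)]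
  have h2 := Nat.card_le_card_of_injective _ hinj
  rw [Nat.card_prod, Nat.card_coe_set_eq, Nat.card_coe_set_eq] at h2
  have h3 : Nat.card Bool = 2 := by simp
  rw [h3] at h2
  unfold N
  exact h2.trans (Nat.mul_le_mul_left 2 hW')

end Pool.Agent.K6.H22.VG
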