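import Mathlib
import Pool.Agent.K6.H22.VG.Count
import Pool.Agent.K6.H22.VG.Upper

/-!
# The growth rate
-/

set_option autoImplicit false

namespace Pool.Agent.K6.H22.VG

open Vis124 Filter Asymptotics

theorem log_lower : ∀ᶠ n : ℕ in atTop, (n : ℝ) * Real.log n / 32 ≤ Real.log (NGP n) := by
  have h1 : ∀ᶠ n : ℕ in atTop, 32 * Real.log 4 ≤ Real.log n :=
    (Real.tendsto_log_atTop.comp tendsto_natCast_atTop_atTop).eventually_ge_atTop _
  filter_upwards [h1, eventually_ge_atTop 16] with n hn h16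
  obtain ⟨m, hm⟩ : ∃ m, m = n / 4 := ⟨_, rfl⟩
  obtain ⟨M, hM⟩ : ∃ M, M = n - 2 * m - 2 := ⟨_, rfl⟩
  have hn' : 2 * m + M + 2 = n := by omega
  have hM1 : 1 ≤ M := by omega
  have h2 := lower m M hM1
  rw [hn'] at h2
  have h3 : ((M : ℝ)) ^ m ≤ (NGP n : ℝ) * 4 ^ n := by exact_mod_cast h2
  have hMpos : (0 : ℝ) < M := by exact_mod_cast hM1
  have hMm : (0 : ℝ) < (M : ℝ) ^ m := pow_pos hMpos m
  have hG : (0 : ℝ) < NGP n := by
    by_contra hc
    have h4 : (NGP n : ℝ) = 0 := le_antisymm (not_lt.mp hc) (Nat.cast_nonneg _)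
    rw [h4, zero_mul] at h3
    linarith
  have h4 := Real.log_le_log hMm h3
  rw [Real.log_pow, Real.log_mul hG.ne' (by positivity), Real.log_pow] at h4
  have hn0 : (16 : ℝ) ≤ n := by exact_mod_cast h16
  have hl4 : 0 < Real.log 4 := Real.log_pos (by norm_num)
  have hln : 0 < Real.log n := Real.log_pos (by linarith)
  have h5 : (n : ℝ) / 4 ≤ M := by
    have : n ≤ 4 * M := by omega
    have : (n : ℝ) ≤ 4 * M := by exact_mod_cast this
    linarith
  have h6 : Real.log n - Real.log 4 ≤ Real.log M := by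
    rw [← Real.log_div (by linarith) (by norm_num)]
    exact Real.log_le_log (by linarith) h5
  have h7 : Real.log n / 2 ≤ Real.log M := by linarith
  have h8 : (n : ℝ) / 8 ≤ m := by
    have : n ≤ 8 * m := by omega
    have : (n : ℝ) ≤ 8 * m := by exact_mod_cast this
    linarith
  have h9 : (n : ℝ) / 8 * (Real.log n / 2) ≤ m * Real.log M :=
    mul_le_mul h8 h7 (by linarith) (by positivity)
  have h10 : (n : ℝ) * Real.log 4 ≤ n * (Real.log n / 32) :=
    mul_le_mul_of_nonneg_left (by linarith) (by linarith)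
  linarith

theorem log_upper : ∀ᶠ n : ℕ in atTop, Real.log (N n) ≤ 13 * ((n : ℝ) * Real.log n) := by
  filter_upwards [eventually_ge_atTop 3] with n hn
  have hn0 : (3 : ℝ) ≤ n := by exact_mod_cast hn
  have hln : Real.log 2 ≤ Real.log n := Real.log_le_log (by norm_num) (by linarith)
  have hl2 : 0 < Real.log 2 := Real.log_pos (by norm_num)
  rcases Nat.eq_zero_or_pos (N n) with h0 | h0
  · rw [h0]
    simp only [Nat.cast_zero, Real.log_zero]
    have : 0 < Real.log n := by linarith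
    positivity
  have hN : (0 : ℝ) < N n := by exact_mod_cast h0
  have h1 : (N n : ℝ) ≤ 2 * (16 * (n : ℝ) ^ 3 + 2) ^ (2 * n) := by exact_mod_cast upper n
  have h2 : 16 * (n : ℝ) ^ 3 + 2 ≤ (n : ℝ) ^ 6 := by
    have h3 : (27 : ℝ) ≤ (n : ℝ) ^ 3 := by
      have : (3 : ℝ) ^ 3 ≤ (n : ℝ) ^ 3 := pow_le_pow_left₀ (by norm_num) hn0 3
      linarith
    have e : (n : ℝ) ^ 6 = (n : ℝ) ^ 3 * (n : ℝ) ^ 3 := by ring
    rw [e]
    nlinarith
  have h3 : (16 * (n : ℝ) ^ 3 + 2) ^ (2 * n) ≤ ((n : ℝ) ^ 6) ^ (2 * n) :=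
    pow_le_pow_left₀ (by positivity) h2 _
  have h4 := Real.log_le_log hN (h1.trans (mul_le_mul_of_nonneg_left h3 (by norm_num)))
  rw [Real.log_mul (by norm_num) (by positivity), Real.log_pow, Real.log_pow] at h4
  push_cast at h4
  have h5 : Real.log 2 ≤ n * Real.log n := by
    have : Real.log n ≤ n * Real.log n := by nlinarith
    linarith
  nlinarith

theorem theta_of {f : ℕ → ℕ} (h1 : ∀ᶠ n : ℕ in atTop, (n : ℝ) * Real.log n / 32 ≤ Real.log (f n))
    (h2 : ∀ᶠ n : ℕ in atTop, Real.log (f n) ≤ 13 * ((n : ℝ) * Real.log n)) :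
    (fun n : ℕ => Real.logb 2 (f n)) =Θ[atTop] fun n : ℕ => (n : ℝ) * Real.log n := by
  have hl2 : 0 < Real.log 2 := Real.log_pos (by norm_num)
  have h3 : ∀ n : ℕ, 0 ≤ (n : ℝ) * Real.log n := fun n =>
    mul_nonneg (Nat.cast_nonneg _) (Real.log_natCast_nonneg n)
  have h4 : ∀ n : ℕ, 0 ≤ Real.log (f n) := fun n => Real.log_natCast_nonneg _
  have h5 : ∀ n : ℕ, Real.logb 2 (f n) = Real.log (f n) / Real.log 2 := fun n => rfl
  constructor
  · apply IsBigO.of_bound (13 / Real.log 2)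
    filter_upwards [h2] with n hn
    rw [h5, Real.norm_of_nonneg (div_nonneg (h4 n) hl2.le), Real.norm_of_nonneg (h3 n),
      div_mul_eq_mul_div]
    exact div_le_div_of_nonneg_right hn hl2.le
  · apply IsBigO.of_bound (32 * Real.log 2)
    filter_upwards [h1] with n hn
    rw [h5, Real.norm_of_nonneg (div_nonneg (h4 n) hl2.le), Real.norm_of_nonneg (h3 n)]
    have e : 32 * Real.log 2 * (Real.log (f n) / Real.log 2) = 32 * Real.log (f n) := by
      field_simp
    rw [e]
    linarith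

/-- the growth rate -/
theorem growth :
    ((fun n : ℕ => Real.logb 2 (N n)) =Θ[atTop] fun n : ℕ => (n : ℝ) * Real.log n) ∧
    ((fun n : ℕ => Real.logb 2 (NGP n)) =Θ[atTop] fun n : ℕ => (n : ℝ) * Real.log n) := by
  have hmono : ∀ᶠ n : ℕ in atTop, Real.log (NGP n) ≤ Real.log (N n) := by
    filter_upwards [log_lower, eventually_ge_atTop 3] with n hn h3
    have hn0 : (3 : ℝ) ≤ n := by exact_mod_cast h3
    have hln : 0 < Real.log n := Real.log_pos (by linarith)
    have h5 : 0 < Real.log (NGP n) := lt_of_lt_of_le (by positivity) hn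
    have h6 : 0 < NGP n := by
      rcases Nat.eq_zero_or_pos (NGP n) with h | h
      · rw [h] at h5; simp at h5
      · exact h
    exact Real.log_le_log (by exact_mod_cast h6) (by exact_mod_cast NGP_le_N n)
  refine ⟨theta_of ?_ log_upper, theta_of log_lower ?_⟩
  · filter_upwards [log_lower, hmono] with n h1 h2
    linarith
  · filter_upwards [log_upper, hmono] with n h1 h2
    linarith

end Pool.Agent.K6.H22.VG
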